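import Pool.Agent.H58.OVPR.Count

/-! The planted distribution against the null distribution. -/

set_option autoImplicit false
set_option maxHeartbeats 4000000

namespace Pool.Agent.H58.OVPR

open Pool.Agent.H58.OVAC

section

variable {k D : ℕ}

theorem avR_mul_left (c : ℝ) (Φ : Str k D → Str k D → ℝ) :
    avR (fun a b => c * Φ a b) = c * avR Φ := by
  unfold avR
  rw [← mul_div_assoc, Finset.mul_sum]
  congr 1
  refine Finset.sum_congr rfl fun a _ => ?_
  rw [Finset.mul_sum]
  refine Finset.sum_congr rfl fun b _ => ?_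
  split_ifs <;> simp

theorem avR_left (hk : 2 ≤ k) (f : Str k D → ℝ) : avR (fun a _ => f a) = av f := by
  have hk' : (2 : ℝ) ≤ k := by exact_mod_cast hk
  have hk1 : (0 : ℝ) < ((k : ℝ) - 1) ^ D := pow_pos (by linarith) _
  have hk2 : (0 : ℝ) < (k : ℝ) ^ D := pow_pos (by linarith) _
  unfold avR av
  have h1 : ∀ a : Str k D, (∑ b : Str k D, if Off a b then f a else 0) =
      ((k : ℝ) - 1) ^ D * f a := by
    intro a
    rw [← count_off' (by omega) a, Finset.sum_mul]
    refine Finset.sum_congr rfl fun b _ => ?_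
    split_ifs <;> simp
  simp only [h1]
  rw [← Finset.mul_sum, mul_pow]
  have h2 : ((Fintype.card (Str k D) : ℕ) : ℝ) = (k : ℝ) ^ D := by
    simp [Fintype.card_fin]
  rw [h2, mul_comm ((k : ℝ) ^ D), mul_div_mul_left _ _ hk1.ne']

theorem avR_right (hk : 2 ≤ k) (f : Str k D → ℝ) : avR (fun _ b => f b) = av f := by
  rw [← avR_left hk f]
  unfold avR
  congr 1
  rw [Finset.sum_comm]
  refine Finset.sum_congr rfl fun b _ => Finset.sum_congr rfl fun a _ => ?_
  have : Off a b ↔ Off b a := forall_congr' fun c => ne_comm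
  simp only [this]

end

theorem av_update {V X : Type} [Fintype V] [DecidableEq V] [Fintype X] [Nonempty X] (p : V)
    (F : (V → X) → ℝ) : (av fun y : V → X => av fun α : X => F (Function.update y p α)) = av F := by
  have h1 := av_mix {p} F
  rw [← h1, av_comm (fun (a : V → X) (b : V → X) => F (mix {p} a b))]
  refine av_congr fun y => ?_
  have h2 : ∀ a : V → X, mix {p} a y = Function.update y p (a p) := by
    intro a
    funext i
    unfold mix
    by_cases hi : i = p
    · subst hi
      simp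
    · simp [hi]
  simp only [h2]
  have h3 := av_equiv (Equiv.funSplitAt p X)
    (fun z : X × ({j // j ≠ p} → X) => F (Function.update y p z.1))
  have h4 : (av fun z : X × ({j // j ≠ p} → X) => F (Function.update y p z.1)) =
      av fun α : X => F (Function.update y p α) := by
    rw [av_prod fun (a : X) (_ : {j // j ≠ p} → X) => F (Function.update y p a)]
    exact av_congr fun a => av_const _
  rw [← h4, ← h3]
  exact av_congr fun ω => rfl

open Classical in
/-- The advantage of a run in distinguishing the planted distribution from the null distribution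
is small. -/
theorem rows_main {p k D n : ℕ} {Cell St Wd : Type} [DecidableEq Cell] [Fintype Cell] {q : ℝ}
    (hk : 2 ≤ k) (hq1 : 1 ≤ q) (hq2 : q ≤ 2) (hgood : Good k q)
    (R : Run p Cell St Wd (Bool × Fin n → Str k D)) (hs0 : ∀ P, DepOne (R.st 0 P))
    (hc0 : ∀ c, DepOne (R.ct 0 c)) (T : ℕ) (out : Cell) (acc : Wd → Bool) {M B0 δ : ℝ}
    (hM0 : 0 ≤ M) (hB0 : ∀ y, ∑ c, infl (R.ct 0 c) y ≤ B0)
    (hbad : pr (fun y : Bool × Fin n → Str k D => ¬ ((∀ τ ≤ T, ∀ P, infl (R.st τ P) y ≤ M) ∧
      ∀ τ ≤ T, ∀ c, infl (R.ct τ c) y ≤ M)) ≤ δ) :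
    (av fun y : Bool × Fin n → Str k D => avR fun a b => ∑ i : Fin n, ∑ j : Fin n,
      (if acc (R.ct T out (yAB y i j a b)) = true then (1 : ℝ) else 0)) ≤
      (n : ℝ) ^ 2 * pr (fun y : Bool × Fin n → Str k D => acc (R.ct T out y) = true) +
      2 * ((n : ℝ) ^ 2 * δ + T * (4 * (((2 * n : ℕ) : ℝ) ^ (1 - 1 / q) * (M + 1)) *
        (((Fintype.card Cell * (p + 1) * (2 * n) : ℕ) : ℝ) ^ (1 - 1 / q) *
          (2 * p * M * (T + 2) + B0 + 2)))) := by
  have hne : Nonempty (Str k D) := ⟨fun _ => ⟨0, by omega⟩⟩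
  set Bd : ℝ := T * (4 * (((2 * n : ℕ) : ℝ) ^ (1 - 1 / q) * (M + 1)) *
        (((Fintype.card Cell * (p + 1) * (2 * n) : ℕ) : ℝ) ^ (1 - 1 / q) *
          (2 * p * M * (T + 2) + B0 + 2))) with hBd
  let ind : (Bool × Fin n → Str k D) → ℝ := fun x =>
    if acc (R.ct T out x) = true then (1 : ℝ) else 0
  have hB00 : 0 ≤ B0 := le_trans (Finset.sum_nonneg fun _ _ => infl_nonneg _ _)
    (hB0 fun _ => hne.some)
  have hBd0 : 0 ≤ Bd := by
    have e1 : 0 ≤ ((2 * n : ℕ) : ℝ) ^ (1 - 1 / q) := Real.rpow_nonneg (Nat.cast_nonneg _) _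
    have e2 : 0 ≤ ((Fintype.card Cell * (p + 1) * (2 * n) : ℕ) : ℝ) ^ (1 - 1 / q) :=
      Real.rpow_nonneg (Nat.cast_nonneg _) _
    positivity
  have hind : ∀ x x', R.ct T out x = R.ct T out x' → ind x = ind x' := by
    intro x x' h
    simp only [ind, h]
  have hind0 : ∀ x, 0 ≤ ind x := fun x => by simp only [ind]; split_ifs <;> norm_num
  have hind1 : ∀ x, ind x ≤ 1 := fun x => by simp only [ind]; split_ifs <;> norm_num
  -- one table
  have h1 : ∀ (y : Bool × Fin n → Str k D) (a b : Str k D) (i j : Fin n),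
      ind (yAB y i j a b) ≤ ind (yA y i a) + ind (yB y j b) - ind y +
        2 * (if ¬ Add (R.ct T out) y a b i j then (1 : ℝ) else 0) := by
    intro y a b i j
    by_cases h : Add (R.ct T out) y a b i j
    · rw [if_neg (by simpa using h), mul_zero, add_zero]
      rcases h with ⟨h2, h3⟩ | ⟨h2, h3⟩
      · rw [hind _ _ h2, hind _ _ h3]
        linarith
      · rw [hind _ _ h2, hind _ _ h3]
        linarith
    · rw [if_pos h]
      linarith [hind0 (yA y i a), hind0 (yB y j b), hind1 y, hind1 (yAB y i j a b)]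
  have h2 : ∀ (y : Bool × Fin n → Str k D) (a b : Str k D),
      (∑ i : Fin n, ∑ j : Fin n, ind (yAB y i j a b)) ≤
      (∑ i : Fin n, (n : ℝ) * ind (yA y i a)) + (∑ j : Fin n, (n : ℝ) * ind (yB y j b)) +
      ((-((n : ℝ) ^ 2)) * ind y +
        2 * ((Finset.univ.filter fun z : Fin n × Fin n =>
          ¬ Add (R.ct T out) y a b z.1 z.2).card : ℝ)) := by
    intro y a b
    have h3 : ((Finset.univ.filter fun z : Fin n × Fin n =>
        ¬ Add (R.ct T out) y a b z.1 z.2).card : ℝ) =
        ∑ i : Fin n, ∑ j : Fin n, (if ¬ Add (R.ct T out) y a b i j then (1 : ℝ) else 0) := by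
      rw [Finset.card_filter, Fintype.sum_prod_type]
      push_cast
      rfl
    rw [h3]
    refine (Finset.sum_le_sum fun i _ => Finset.sum_le_sum fun j _ => h1 y a b i j).trans
      (le_of_eq ?_)
    simp only [Finset.sum_add_distrib, Finset.sum_sub_distrib, Finset.sum_const, Finset.card_univ,
      Fintype.card_fin, nsmul_eq_mul, ← Finset.mul_sum]
    ring
  have h4 : (av fun y : Bool × Fin n → Str k D => avR fun a b => ∑ i : Fin n, ∑ j : Fin n,
      ind (yAB y i j a b)) ≤ (av fun y : Bool × Fin n → Str k D => avR fun a b =>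
      (∑ i : Fin n, (n : ℝ) * ind (yA y i a)) + (∑ j : Fin n, (n : ℝ) * ind (yB y j b)) +
      ((-((n : ℝ) ^ 2)) * ind y +
        2 * ((Finset.univ.filter fun z : Fin n × Fin n =>
          ¬ Add (R.ct T out) y a b z.1 z.2).card : ℝ))) :=
    av_mono fun y => avR_mono hk fun a b _ => h2 y a b
  refine h4.trans ?_
  have e1 : ∀ y : Bool × Fin n → Str k D, (avR fun a b : Str k D =>
      (∑ i : Fin n, (n : ℝ) * ind (yA y i a)) + (∑ j : Fin n, (n : ℝ) * ind (yB y j b)) +
      ((-((n : ℝ) ^ 2)) * ind y +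
        2 * ((Finset.univ.filter fun z : Fin n × Fin n =>
          ¬ Add (R.ct T out) y a b z.1 z.2).card : ℝ))) =
      (∑ i : Fin n, (n : ℝ) * av fun a : Str k D => ind (yA y i a)) +
      (∑ j : Fin n, (n : ℝ) * av fun b : Str k D => ind (yB y j b)) +
      ((-((n : ℝ) ^ 2)) * ind y + 2 * avR fun a b : Str k D =>
        ((Finset.univ.filter fun z : Fin n × Fin n =>
          ¬ Add (R.ct T out) y a b z.1 z.2).card : ℝ)) := by
    intro y
    rw [avR_add, avR_add, avR_add, avR_sum, avR_sum, avR_mul_left, avR_const hk]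
    congr 2
    · refine Finset.sum_congr rfl fun i _ => ?_
      rw [avR_mul_left, avR_left hk]
    · refine Finset.sum_congr rfl fun j _ => ?_
      rw [avR_mul_left, avR_right hk]
    · exact avR_mul_left _ _
  rw [av_congr e1, av_add, av_add, av_add, av_sum, av_sum, av_mul_left, av_mul_left]
  have e2 : ∀ i : Fin n, (av fun y : Bool × Fin n → Str k D => (n : ℝ) *
      av fun a : Str k D => ind (yA y i a)) = n * av ind := by
    intro i
    rw [av_mul_left]
    congr 1
    exact av_update (false, i) ind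
  have e3 : ∀ j : Fin n, (av fun y : Bool × Fin n → Str k D => (n : ℝ) *
      av fun b : Str k D => ind (yB y j b)) = n * av ind := by
    intro j
    rw [av_mul_left]
    congr 1
    exact av_update (true, j) ind
  simp only [e2, e3, Finset.sum_const, Finset.card_univ, Fintype.card_fin, nsmul_eq_mul]
  have e4 : av ind = pr (fun y : Bool × Fin n → Str k D => acc (R.ct T out y) = true) := by
    unfold pr
    refine av_congr fun y => ?_
    simp only [ind]
    congr
  have e5 : (av fun y : Bool × Fin n → Str k D => avR fun a b : Str k D =>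
        ((Finset.univ.filter fun z : Fin n × Fin n =>
          ¬ Add (R.ct T out) y a b z.1 z.2).card : ℝ)) ≤ (n : ℝ) ^ 2 * δ + Bd := by
    have e6 : ∀ y : Bool × Fin n → Str k D, (avR fun a b : Str k D =>
        ((Finset.univ.filter fun z : Fin n × Fin n =>
          ¬ Add (R.ct T out) y a b z.1 z.2).card : ℝ)) ≤
        (n : ℝ) ^ 2 * (if ¬ ((∀ τ ≤ T, ∀ P, infl (R.st τ P) y ≤ M) ∧
          ∀ τ ≤ T, ∀ c, infl (R.ct τ c) y ≤ M) then (1 : ℝ) else 0) + Bd := by
      intro y
      by_cases hy : (∀ τ ≤ T, ∀ P, infl (R.st τ P) y ≤ M) ∧ ∀ τ ≤ T, ∀ c, infl (R.ct τ c) y ≤ M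
      · rw [if_neg (not_not.2 hy), mul_zero, zero_add]
        exact count hk hq1 hq2 hgood R hs0 hc0 T out y hM0 hy.1 hy.2 (hB0 y)
      · rw [if_pos hy, mul_one]
        have e7 : (avR fun a b : Str k D =>
            ((Finset.univ.filter fun z : Fin n × Fin n =>
              ¬ Add (R.ct T out) y a b z.1 z.2).card : ℝ)) ≤
            avR fun _ _ : Str k D => (n : ℝ) ^ 2 := by
          refine avR_mono hk fun a b _ => ?_
          have e8 := Finset.card_le_univ (Finset.univ.filter fun z : Fin n × Fin n =>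
              ¬ Add (R.ct T out) y a b z.1 z.2)
          rw [Fintype.card_prod, Fintype.card_fin] at e8
          rw [sq]
          exact_mod_cast e8
        rw [avR_const hk] at e7
        linarith
    refine (av_mono e6).trans ?_
    rw [av_add, av_mul_left]
    have e9 : (av fun _ : Bool × Fin n → Str k D => Bd) = Bd := av_const _
    rw [e9]
    have e10 : (av fun y : Bool × Fin n → Str k D =>
        if ¬ ((∀ τ ≤ T, ∀ P, infl (R.st τ P) y ≤ M) ∧
          ∀ τ ≤ T, ∀ c, infl (R.ct τ c) y ≤ M) then (1 : ℝ) else 0) ≤ δ := by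
      refine le_of_eq_of_le ?_ hbad
      unfold pr
      exact av_congr fun y => by congr
    have e11 : (n : ℝ) ^ 2 * (av fun y : Bool × Fin n → Str k D =>
        if ¬ ((∀ τ ≤ T, ∀ P, infl (R.st τ P) y ≤ M) ∧
          ∀ τ ≤ T, ∀ c, infl (R.ct τ c) y ≤ M) then (1 : ℝ) else 0) ≤ (n : ℝ) ^ 2 * δ :=
      mul_le_mul_of_nonneg_left e10 (by positivity)
    linarith
  rw [e4]
  nlinarith

end Pool.Agent.H58.OVPR
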