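import Pool.Agent.H58.OVPR.Main

/-! The numerical conclusion for deterministic machines. -/

set_option autoImplicit false
set_option maxHeartbeats 4000000

namespace Pool.Agent.H58.OVPR

open Pool.Agent.H58.OVAC

/-- The exceptional inputs are rare. -/
theorem bad_le (T K : ℕ) : ∃ t' N₀ : ℕ, ∀ N ≥ N₀, ∀ (V X : Type) [Fintype V]
    [DecidableEq V] [Fintype X] [Nonempty X] (p : ℕ) (Cell St Wd : Type) [Fintype Cell]
    [DecidableEq Cell] (R : Run p Cell St Wd (V → X)), (∀ P, DepOne (R.st 0 P)) →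
    (∀ c, DepOne (R.ct 0 c)) →
    pr (fun y : V → X => ¬ ((∀ τ ≤ T, ∀ P, infl (R.st τ P) y ≤ ((t' * N ^ T : ℕ) : ℝ) + 1) ∧
      ∀ τ ≤ T, ∀ c, infl (R.ct τ c) y ≤ ((t' * N ^ T : ℕ) : ℝ) + 1)) ≤
      (T + 1) * (p + Fintype.card Cell) * ((Fintype.card V : ℝ) *
        ((((p + 1) * Fintype.card Cell : ℕ) : ℝ) / (N : ℝ) ^ K)) := by
  obtain ⟨t', N₀, h⟩ := run_infl T K
  refine ⟨t', N₀, ?_⟩
  intro N hN V X _ _ _ _ p Cell St Wd _ _ R hs hc
  have h1 := h N hN V X p Cell St Wd R hs hc _ le_rfl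
  set M : ℝ := ((t' * N ^ T : ℕ) : ℝ) + 1 with hM
  set δ : ℝ := (Fintype.card V : ℝ) * ((((p + 1) * Fintype.card Cell : ℕ) : ℝ) / (N : ℝ) ^ K)
    with hδ
  have h2 : ∀ y : V → X, ¬ ((∀ τ ≤ T, ∀ P, infl (R.st τ P) y ≤ M) ∧
      ∀ τ ≤ T, ∀ c, infl (R.ct τ c) y ≤ M) →
      (∃ z ∈ Finset.range (T + 1) ×ˢ (Finset.univ : Finset (Fin p)), M < infl (R.st z.1 z.2) y) ∨
      ∃ z ∈ Finset.range (T + 1) ×ˢ (Finset.univ : Finset Cell), M < infl (R.ct z.1 z.2) y := by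
    intro y hy
    by_contra hcon
    push Not at hcon
    apply hy
    constructor
    · intro τ hτ P
      exact hcon.1 (τ, P) (Finset.mem_product.2 ⟨Finset.mem_range.2 (by omega),
        Finset.mem_univ _⟩)
    · intro τ hτ c
      exact hcon.2 (τ, c) (Finset.mem_product.2 ⟨Finset.mem_range.2 (by omega),
        Finset.mem_univ _⟩)
  refine (pr_mono h2).trans ((pr_or_le _ _).trans ?_)
  have h3 : pr (fun y : V → X => ∃ z ∈ Finset.range (T + 1) ×ˢ (Finset.univ : Finset (Fin p)),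
      M < infl (R.st z.1 z.2) y) ≤ ((T + 1) * p : ℕ) * δ := by
    refine (pr_exists_le _ _).trans ((Finset.sum_le_sum fun z hz => (h1 z.1 (by
      have := Finset.mem_range.1 (Finset.mem_product.1 hz).1
      omega)).1 z.2).trans (le_of_eq ?_))
    rw [Finset.sum_const, Finset.card_product, Finset.card_range, Finset.card_univ,
      Fintype.card_fin, nsmul_eq_mul]
  have h4 : pr (fun y : V → X => ∃ z ∈ Finset.range (T + 1) ×ˢ (Finset.univ : Finset Cell),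
      M < infl (R.ct z.1 z.2) y) ≤ ((T + 1) * Fintype.card Cell : ℕ) * δ := by
    refine (pr_exists_le _ _).trans ((Finset.sum_le_sum fun z hz => (h1 z.1 (by
      have := Finset.mem_range.1 (Finset.mem_product.1 hz).1
      omega)).2 z.2).trans (le_of_eq ?_))
    rw [Finset.sum_const, Finset.card_product, Finset.card_range, Finset.card_univ, nsmul_eq_mul]
  refine (add_le_add h3 h4).trans (le_of_eq ?_)
  push_cast
  ring

theorem core (C : ℕ) (ε : ℝ) (hε : 0 < ε) : ∃ k : ℕ, 2 ≤ k ∧ ∀ T : ℕ, ∃ n₀ : ℕ, ∀ n ≥ n₀,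
    ∀ (D p : ℕ) (Cell St Wd : Type) [Fintype Cell] [DecidableEq Cell]
    (R : Run p Cell St Wd (Bool × Fin n → Str k D)), (∀ P, DepOne (R.st 0 P)) →
    (∀ c, DepOne (R.ct 0 c)) → (∀ y, ∑ c, infl (R.ct 0 c) y ≤ 2 * n) →
    Fintype.card Cell ≤ n ^ C → (p : ℝ) < (n : ℝ) ^ (2 - ε) → ∀ (out : Cell) (acc : Wd → Bool),
    (av fun y : Bool × Fin n → Str k D => avR fun a b => ∑ i : Fin n, ∑ j : Fin n,
      (if acc (R.ct T out (yAB y i j a b)) = true then (1 : ℝ) else 0)) ≤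
      (n : ℝ) ^ 2 * (pr (fun y : Bool × Fin n → Str k D => acc (R.ct T out y) = true) +
        1 / 10) := by
  -- we may assume that `ε ≤ 1`
  wlog hε1 : ε ≤ 1 generalizing ε
  · obtain ⟨k, hk, h'⟩ := this 1 one_pos le_rfl
    refine ⟨k, hk, fun T => ?_⟩
    obtain ⟨n₀, h⟩ := h' T
    refine ⟨max n₀ 1, fun n hn D p Cell St Wd _ _ R hs hc hB hcard hp out acc => ?_⟩
    refine h n ((le_max_left _ _).trans hn) D p Cell St Wd R hs hc hB hcard
      (hp.trans_le ?_) out acc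
    have hn1 : (1 : ℝ) ≤ n := by exact_mod_cast (le_max_right _ _).trans hn
    exact Real.rpow_le_rpow_of_exponent_le hn1 (by linarith)
  -- parameters
  have hC4 : (0 : ℝ) < 4 * ((C : ℝ) + 4) := by positivity
  obtain ⟨η, hη⟩ : ∃ η : ℝ, η = ε / (4 * ((C : ℝ) + 4)) := ⟨_, rfl⟩
  have hη0 : 0 < η := by rw [hη]; positivity
  have hη1 : η ≤ 1 := by
    rw [hη, div_le_one hC4]
    have : (0 : ℝ) ≤ C := Nat.cast_nonneg C
    linarith
  obtain ⟨k, hk, hgood⟩ := exists_good hη0 hη1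
  refine ⟨k, hk, fun T => ?_⟩
  obtain ⟨a, ha⟩ := exists_nat_ge (8 * (T : ℝ) / ε + 1)
  have ha1 : (1 : ℝ) ≤ a := by
    have : 0 ≤ 8 * (T : ℝ) / ε := by positivity
    linarith
  have ha0 : (0 : ℝ) < a := by linarith
  have haT : 2 * ((T : ℝ) / a) ≤ ε / 4 := by
    have h1 : 8 * (T : ℝ) / ε ≤ a := by linarith
    rw [div_le_iff₀ hε] at h1
    rw [← mul_div_assoc, div_le_iff₀ ha0]
    linarith
  obtain ⟨t', N₀, hbad⟩ := bad_le T (a * (2 * C + 6))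
  obtain ⟨c₁, hc₁⟩ : ∃ c₁ : ℝ, c₁ = 32 * T * (2 * T + 8) * (((t' : ℝ) + 2) * 2 ^ T) ^ 2 := ⟨_, rfl⟩
  have hc₁0 : 0 ≤ c₁ := by rw [hc₁]; positivity
  have ev1 : ∀ᶠ n : ℕ in Filter.atTop, N₀ ≤ n ^ 1 := by
    filter_upwards [Filter.eventually_ge_atTop N₀] with n hn
    simpa using hn
  have hlim1 : Filter.Tendsto (fun n : ℕ => (n : ℝ) ^ (1 / (a : ℝ))) Filter.atTop Filter.atTop :=
    (tendsto_rpow_atTop (by positivity)).comp tendsto_natCast_atTop_atTop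
  have hlim2 : Filter.Tendsto (fun n : ℕ => (n : ℝ) ^ (ε / 2)) Filter.atTop Filter.atTop :=
    (tendsto_rpow_atTop (by positivity)).comp tendsto_natCast_atTop_atTop
  have hlim3 : Filter.Tendsto (fun n : ℕ => (n : ℝ)) Filter.atTop Filter.atTop :=
    tendsto_natCast_atTop_atTop
  obtain ⟨n₀, hn₀⟩ := Filter.eventually_atTop.1 ((hlim1.eventually_ge_atTop (N₀ : ℝ)).and
    ((hlim2.eventually_ge_atTop (40 * c₁)).and ((hlim3.eventually_ge_atTop
      (320 * ((T : ℝ) + 1))).and (Filter.eventually_ge_atTop 2))))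
  refine ⟨n₀, ?_⟩
  intro n hn D p Cell St Wd _ _ R hs hc hB hcard hp out acc
  obtain ⟨g1, g2, g3, g4⟩ := hn₀ n hn
  have hn2 : (2 : ℝ) ≤ n := by exact_mod_cast g4
  have hn1 : (1 : ℝ) ≤ n := by linarith
  have hn0 : (0 : ℝ) < n := by linarith
  obtain ⟨q, hq⟩ : ∃ q : ℝ, q = 1 + η := ⟨_, rfl⟩
  rw [← hq] at hgood
  have hq1 : 1 ≤ q := by linarith
  have hq2 : q ≤ 2 := by linarith
  have hθ : 1 - 1 / q ≤ η := by
    have : 1 / q ≥ 1 - η := by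
      rw [ge_iff_le, le_div_iff₀ (by linarith), hq]
      nlinarith
    linarith
  have hθ0 : 0 ≤ 1 - 1 / q := by
    rw [sub_nonneg, div_le_one (by linarith)]
    exact hq1
  -- the number of colours
  obtain ⟨N, hN⟩ : ∃ N : ℕ, N = ⌈(n : ℝ) ^ (1 / (a : ℝ))⌉₊ := ⟨_, rfl⟩
  have hx1 : 1 ≤ (n : ℝ) ^ (1 / (a : ℝ)) := Real.one_le_rpow hn1 (by positivity)
  have hNge : (n : ℝ) ^ (1 / (a : ℝ)) ≤ N := by rw [hN]; exact Nat.le_ceil _
  have hNle : (N : ℝ) ≤ 2 * (n : ℝ) ^ (1 / (a : ℝ)) := by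
    rw [hN]
    have := (Nat.ceil_lt_add_one (show 0 ≤ (n : ℝ) ^ (1 / (a : ℝ)) by linarith)).le
    linarith
  have hNN₀ : N₀ ≤ N := by
    have : (N₀ : ℝ) ≤ N := g1.trans hNge
    exact_mod_cast this
  have hN1 : (1 : ℝ) ≤ N := hx1.trans hNge
  have hNa : (n : ℝ) ≤ (N : ℝ) ^ a := by
    calc (n : ℝ) = ((n : ℝ) ^ (1 / (a : ℝ))) ^ a := by
          rw [← Real.rpow_natCast, ← Real.rpow_mul hn0.le, one_div_mul_cancel ha0.ne',
            Real.rpow_one]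
      _ ≤ (N : ℝ) ^ a := pow_le_pow_left₀ (by linarith) hNge a
  obtain ⟨M, hM⟩ : ∃ M : ℝ, M = ((t' * N ^ T : ℕ) : ℝ) + 1 := ⟨_, rfl⟩
  have hM0 : 0 ≤ M := by rw [hM]; positivity
  have hMle : M + 1 ≤ ((t' : ℝ) + 2) * 2 ^ T * (n : ℝ) ^ ((T : ℝ) / a) := by
    have h1 : (1 : ℝ) ≤ (N : ℝ) ^ T := one_le_pow₀ hN1
    have h2 : (N : ℝ) ^ T ≤ 2 ^ T * (n : ℝ) ^ ((T : ℝ) / a) := by
      calc (N : ℝ) ^ T ≤ (2 * (n : ℝ) ^ (1 / (a : ℝ))) ^ T :=
            pow_le_pow_left₀ (by linarith) hNle T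
        _ = 2 ^ T * (n : ℝ) ^ ((T : ℝ) / a) := by
            rw [mul_pow, ← Real.rpow_natCast ((n : ℝ) ^ (1 / (a : ℝ))) T,
              ← Real.rpow_mul hn0.le]
            congr 2
            ring
    rw [hM]
    push_cast
    calc (t' : ℝ) * N ^ T + 1 + 1 ≤ ((t' : ℝ) + 2) * N ^ T := by nlinarith
      _ ≤ ((t' : ℝ) + 2) * (2 ^ T * (n : ℝ) ^ ((T : ℝ) / a)) :=
          mul_le_mul_of_nonneg_left h2 (by positivity)
      _ = _ := by ring
  -- the number of processors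
  have hpn : (p : ℝ) ≤ (n : ℝ) ^ (2 - ε) := hp.le
  have hp2 : (p : ℝ) ≤ (n : ℝ) ^ 2 := by
    refine hpn.trans ?_
    calc (n : ℝ) ^ (2 - ε) ≤ (n : ℝ) ^ (2 : ℝ) :=
          Real.rpow_le_rpow_of_exponent_le hn1 (by linarith)
      _ = (n : ℝ) ^ 2 := by
          rw [← Real.rpow_natCast]
          norm_num
  have hcardR : (Fintype.card Cell : ℝ) ≤ (n : ℝ) ^ C := by exact_mod_cast hcard
  have hcard0 : (0 : ℝ) ≤ Fintype.card Cell := Nat.cast_nonneg _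
  have hp1 : (p : ℝ) + 1 ≤ 2 * (n : ℝ) ^ 2 := by nlinarith
  have hnC : (1 : ℝ) ≤ (n : ℝ) ^ C := one_le_pow₀ hn1
  -- bad inputs
  have hne : Nonempty (Str k D) := ⟨fun _ => ⟨0, by omega⟩⟩
  have hδ := hbad N hNN₀ (Bool × Fin n) (Str k D) p Cell St Wd R hs hc
  rw [← hM] at hδ
  have hcardV : (Fintype.card (Bool × Fin n) : ℝ) = 2 * n := by
    simp
  have hδ' : pr (fun y : Bool × Fin n → Str k D => ¬ ((∀ τ ≤ T, ∀ P, infl (R.st τ P) y ≤ M) ∧
      ∀ τ ≤ T, ∀ c, infl (R.ct τ c) y ≤ M)) ≤ 1 / 40 := by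
    refine hδ.trans ?_
    rw [hcardV]
    push_cast
    have e1 : (p : ℝ) + Fintype.card Cell ≤ 2 * (n : ℝ) ^ 2 * (n : ℝ) ^ C := by
      have : (1 : ℝ) ≤ (n : ℝ) ^ 2 := one_le_pow₀ hn1
      nlinarith
    have e2 : ((p : ℝ) + 1) * Fintype.card Cell ≤ 2 * (n : ℝ) ^ 2 * (n : ℝ) ^ C :=
      mul_le_mul hp1 hcardR hcard0 (by positivity)
    have e3 : (n : ℝ) ^ 6 * ((n : ℝ) ^ C) ^ 2 ≤ (N : ℝ) ^ (a * (2 * C + 6)) := by
      calc (n : ℝ) ^ 6 * ((n : ℝ) ^ C) ^ 2 = (n : ℝ) ^ (2 * C + 6) := by ring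
        _ ≤ ((N : ℝ) ^ a) ^ (2 * C + 6) := pow_le_pow_left₀ hn0.le hNa _
        _ = _ := by rw [pow_mul]
    have e4 : 0 < (n : ℝ) ^ 6 * ((n : ℝ) ^ C) ^ 2 := by positivity
    calc ((T : ℝ) + 1) * (p + Fintype.card Cell) * (2 * n *
          (((p + 1) * Fintype.card Cell) / (N : ℝ) ^ (a * (2 * C + 6))))
        ≤ ((T : ℝ) + 1) * (2 * (n : ℝ) ^ 2 * (n : ℝ) ^ C) * (2 * n *
          ((2 * (n : ℝ) ^ 2 * (n : ℝ) ^ C) / ((n : ℝ) ^ 6 * ((n : ℝ) ^ C) ^ 2))) := by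
          gcongr
      _ = 8 * (T + 1) / n := by
          field_simp
          ring
      _ ≤ 1 / 40 := by
          rw [div_le_div_iff₀ hn0 (by norm_num)]
          linarith
  have hmain := rows_main hk hq1 hq2 hgood R hs hc T out acc hM0 hB hδ'
  refine hmain.trans ?_
  -- the main term
  obtain ⟨M', hM'⟩ : ∃ M' : ℝ, M' = ((t' : ℝ) + 2) * 2 ^ T * (n : ℝ) ^ ((T : ℝ) / a) := ⟨_, rfl⟩
  rw [← hM'] at hMle
  have hM'0 : 0 ≤ M' := by rw [hM']; positivity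
  have f1 : ((2 * n : ℕ) : ℝ) ^ (1 - 1 / q) ≤ 2 * (n : ℝ) ^ η := by
    push_cast
    calc (2 * (n : ℝ)) ^ (1 - 1 / q) ≤ (2 * (n : ℝ)) ^ η :=
          Real.rpow_le_rpow_of_exponent_le (by linarith) hθ
      _ = (2 : ℝ) ^ η * (n : ℝ) ^ η := Real.mul_rpow (by norm_num) hn0.le
      _ ≤ 2 * (n : ℝ) ^ η := by
          apply mul_le_mul_of_nonneg_right _ (by positivity)
          calc (2 : ℝ) ^ η ≤ (2 : ℝ) ^ (1 : ℝ) :=
                Real.rpow_le_rpow_of_exponent_le (by norm_num) hη1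
            _ = 2 := Real.rpow_one 2
  have f2 : ((Fintype.card Cell * (p + 1) * (2 * n) : ℕ) : ℝ) ^ (1 - 1 / q) ≤
      4 * (n : ℝ) ^ (((C : ℝ) + 3) * η) := by
    have e1 : ((Fintype.card Cell * (p + 1) * (2 * n) : ℕ) : ℝ) ≤ 4 * (n : ℝ) ^ (C + 3) := by
      push_cast
      calc (Fintype.card Cell : ℝ) * (p + 1) * (2 * n) ≤ (n : ℝ) ^ C * (2 * (n : ℝ) ^ 2) *
            (2 * n) := by gcongr
        _ = 4 * (n : ℝ) ^ (C + 3) := by ring
    have e2 : (1 : ℝ) ≤ (n : ℝ) ^ (C + 3) := one_le_pow₀ hn1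
    calc ((Fintype.card Cell * (p + 1) * (2 * n) : ℕ) : ℝ) ^ (1 - 1 / q) ≤
          (4 * (n : ℝ) ^ (C + 3)) ^ (1 - 1 / q) :=
          Real.rpow_le_rpow (Nat.cast_nonneg _) e1 hθ0
      _ ≤ (4 * (n : ℝ) ^ (C + 3)) ^ η :=
          Real.rpow_le_rpow_of_exponent_le (by linarith) hθ
      _ = (4 : ℝ) ^ η * ((n : ℝ) ^ (C + 3)) ^ η := Real.mul_rpow (by norm_num) (by positivity)
      _ = (4 : ℝ) ^ η * (n : ℝ) ^ (((C : ℝ) + 3) * η) := by
          rw [← Real.rpow_natCast (n : ℝ) (C + 3), ← Real.rpow_mul hn0.le]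
          push_cast
          rfl
      _ ≤ 4 * (n : ℝ) ^ (((C : ℝ) + 3) * η) := by
          apply mul_le_mul_of_nonneg_right _ (by positivity)
          calc (4 : ℝ) ^ η ≤ (4 : ℝ) ^ (1 : ℝ) :=
                Real.rpow_le_rpow_of_exponent_le (by norm_num) hη1
            _ = 4 := Real.rpow_one 4
  have f3 : 2 * (p : ℝ) * M * (T + 2) + 2 * n + 2 ≤
      (n : ℝ) ^ (2 - ε) * M' * (2 * T + 8) := by
    have e1 : (n : ℝ) ≤ (n : ℝ) ^ (2 - ε) := by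
      calc (n : ℝ) = (n : ℝ) ^ (1 : ℝ) := (Real.rpow_one _).symm
        _ ≤ (n : ℝ) ^ (2 - ε) := Real.rpow_le_rpow_of_exponent_le hn1 (by linarith)
    have hT0 : (0 : ℝ) ≤ T := Nat.cast_nonneg T
    have hM1 : M + 1 ≤ M' := hMle
    have e2 : (p : ℝ) * M ≤ (n : ℝ) ^ (2 - ε) * M' :=
      mul_le_mul hpn (by linarith) hM0 (by positivity)
    have e3 : (n : ℝ) ≤ (n : ℝ) ^ (2 - ε) * M' := by
      calc (n : ℝ) ≤ (n : ℝ) ^ (2 - ε) * 1 := by rw [mul_one]; exact e1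
        _ ≤ (n : ℝ) ^ (2 - ε) * M' := by
            apply mul_le_mul_of_nonneg_left _ (by positivity)
            linarith
    calc 2 * (p : ℝ) * M * (T + 2) + 2 * n + 2 ≤ (2 * T + 4) * ((p : ℝ) * M) + 4 * n := by
          nlinarith
      _ ≤ (2 * T + 4) * ((n : ℝ) ^ (2 - ε) * M') + 4 * ((n : ℝ) ^ (2 - ε) * M') := by
          apply add_le_add
          · exact mul_le_mul_of_nonneg_left e2 (by positivity)
          · linarith
      _ = _ := by ring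
  have f4 : (T : ℝ) * (4 * (((2 * n : ℕ) : ℝ) ^ (1 - 1 / q) * (M + 1)) *
        (((Fintype.card Cell * (p + 1) * (2 * n) : ℕ) : ℝ) ^ (1 - 1 / q) *
          (2 * p * M * (T + 2) + 2 * n + 2))) ≤ (n : ℝ) ^ 2 * (1 / 40) := by
    have hT0 : (0 : ℝ) ≤ T := Nat.cast_nonneg T
    have e0 : 0 ≤ ((Fintype.card Cell * (p + 1) * (2 * n) : ℕ) : ℝ) ^ (1 - 1 / q) :=
      Real.rpow_nonneg (Nat.cast_nonneg _) _
    have e0' : 0 ≤ ((2 * n : ℕ) : ℝ) ^ (1 - 1 / q) := Real.rpow_nonneg (Nat.cast_nonneg _) _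
    calc (T : ℝ) * (4 * (((2 * n : ℕ) : ℝ) ^ (1 - 1 / q) * (M + 1)) *
        (((Fintype.card Cell * (p + 1) * (2 * n) : ℕ) : ℝ) ^ (1 - 1 / q) *
          (2 * p * M * (T + 2) + 2 * n + 2)))
        ≤ (T : ℝ) * (4 * ((2 * (n : ℝ) ^ η) * M') * ((4 * (n : ℝ) ^ (((C : ℝ) + 3) * η)) *
          ((n : ℝ) ^ (2 - ε) * M' * (2 * T + 8)))) := by
          apply mul_le_mul_of_nonneg_left _ hT0
          apply mul_le_mul
          · apply mul_le_mul_of_nonneg_left _ (by norm_num)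
            exact mul_le_mul f1 hMle (by linarith) (by positivity)
          · exact mul_le_mul f2 f3 (by positivity) (by positivity)
          · exact mul_nonneg e0 (by positivity)
          · positivity
      _ = 32 * T * (2 * T + 8) * ((n : ℝ) ^ η * (n : ℝ) ^ (((C : ℝ) + 3) * η) *
          (n : ℝ) ^ (2 - ε) * M' ^ 2) := by ring
      _ = c₁ * ((n : ℝ) ^ η * (n : ℝ) ^ (((C : ℝ) + 3) * η) * (n : ℝ) ^ (2 - ε) *
          ((n : ℝ) ^ ((T : ℝ) / a)) ^ 2) := by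
          rw [hM', hc₁]
          ring
      _ = c₁ * (n : ℝ) ^ (η + ((C : ℝ) + 3) * η + (2 - ε) + 2 * ((T : ℝ) / a)) := by
          rw [Real.rpow_add hn0, Real.rpow_add hn0, Real.rpow_add hn0, two_mul ((T : ℝ) / a),
            Real.rpow_add hn0, sq]
      _ ≤ c₁ * (n : ℝ) ^ (2 - ε / 2) := by
          apply mul_le_mul_of_nonneg_left _ hc₁0
          apply Real.rpow_le_rpow_of_exponent_le hn1
          have e5 : η + ((C : ℝ) + 3) * η = ε / 4 := by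
            rw [hη]
            field_simp
            ring
          linarith
      _ ≤ (n : ℝ) ^ 2 * (1 / 40) := by
          have e6 : (n : ℝ) ^ (2 - ε / 2) * (n : ℝ) ^ (ε / 2) = (n : ℝ) ^ 2 := by
            rw [← Real.rpow_add hn0, ← Real.rpow_natCast]
            congr 1
            push_cast
            ring
          have e7 : 0 < (n : ℝ) ^ (2 - ε / 2) := by positivity
          nlinarith
  linarith

end Pool.Agent.H58.OVPR
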