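import Pool.Agent.H58.OVPR.Hash
import Pool.Agent.H58.OVPR.Core

/-! Deterministic machines with unlimited memory. -/

set_option autoImplicit false
set_option maxHeartbeats 4000000

namespace Pool.Agent.H58.OVPR

open Pool.Agent.H58.OVAC

theorem exists_le_av {Ω : Type} [Fintype Ω] [Nonempty Ω] (f : Ω → ℝ) : ∃ ω, f ω ≤ av f := by
  have h0 : (0 : ℝ) < Fintype.card Ω := by exact_mod_cast Fintype.card_pos
  have h1 : ∑ ω : Ω, f ω ≤ ∑ _ω : Ω, av f := by
    rw [Finset.sum_const, Finset.card_univ, nsmul_eq_mul]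
    unfold av
    rw [mul_div_cancel₀ _ h0.ne']
  obtain ⟨ω, _, h2⟩ := Finset.exists_le_of_sum_le Finset.univ_nonempty h1
  exact ⟨ω, h2⟩

theorem pr_eq_pair {V X : Type} [Fintype V] [DecidableEq V] [Fintype X] [Nonempty X] (a b : V)
    (hab : a ≠ b) : pr (fun ω : V → X => ω a = ω b) = 1 / Fintype.card X := by
  classical
  rw [← pr_mix {a} fun ω : V → X => ω a = ω b]
  have h1 : ∀ u : V → X, (pr fun v : V → X => mix {a} u v a = mix {a} u v b) =
      1 / Fintype.card X := by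
    intro u
    have h2 : (pr fun v : V → X => mix {a} u v a = mix {a} u v b) =
        pr fun v : V → X => u a = v b := by
      refine pr_congr fun v => ?_
      simp [mix, Ne.symm hab]
    rw [h2, pr_coord b fun x : X => u a = x]
    unfold pr av
    simp
  rw [av_congr h1]
  exact av_const _

section hash

variable {I : Type} [DecidableEq I]

/-- The hash function given by a table. -/
def tab {B m : ℕ} (hm : 0 < m) (h : Fin B → Fin m) : ℕ → Fin m :=
  fun a => if ha : a < B then h ⟨a, ha⟩ else ⟨0, hm⟩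

theorem pr_collision {B m : ℕ} (hm : 0 < m) (S : Finset (I ⊕ ℕ))
    (hS : ∀ a, Sum.inr a ∈ S → a < B) :
    pr (fun h : Fin B → Fin m => ¬ Set.InjOn (Sum.map id (tab hm h)) (S : Set (I ⊕ ℕ))) ≤
      (S.card : ℝ) ^ 2 / m := by
  have hne : Nonempty (Fin m) := ⟨⟨0, hm⟩⟩
  have h1 : ∀ h : Fin B → Fin m, ¬ Set.InjOn (Sum.map id (tab hm h)) (S : Set (I ⊕ ℕ)) →
      ∃ z ∈ S ×ˢ S, z.1 ≠ z.2 ∧ Sum.map id (tab hm h) z.1 = Sum.map id (tab hm h) z.2 := by
    intro h hh
    unfold Set.InjOn at hh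
    push Not at hh
    obtain ⟨c, hc, c', hc', h2, h3⟩ := hh
    exact ⟨(c, c'), Finset.mem_product.2 ⟨hc, hc'⟩, h3, h2⟩
  refine (pr_mono h1).trans ((pr_exists_le _ _).trans ?_)
  have h2 : ∀ z ∈ S ×ˢ S, pr (fun h : Fin B → Fin m =>
      z.1 ≠ z.2 ∧ Sum.map id (tab hm h) z.1 = Sum.map id (tab hm h) z.2) ≤ 1 / m := by
    rintro ⟨c, c'⟩ hz
    obtain ⟨hc, hc'⟩ := Finset.mem_product.1 hz
    rcases c with q | a
    · rcases c' with q' | a'
      · rw [pr_eq_zero]
        · positivity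
        · rintro h ⟨h3, h4⟩
          simp only [Sum.map_inl, id, Sum.inl.injEq] at h4
          exact h3 (by rw [h4])
      · rw [pr_eq_zero]
        · positivity
        · rintro h ⟨h3, h4⟩
          simp at h4
    · rcases c' with q' | a'
      · rw [pr_eq_zero]
        · positivity
        · rintro h ⟨h3, h4⟩
          simp at h4
      · by_cases haa : a = a'
        · rw [pr_eq_zero]
          · positivity
          · rintro h ⟨h3, h4⟩
            exact h3 (by simp only [haa])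
        · have ha := hS a hc
          have ha' := hS a' hc'
          have h5 := pr_eq_pair (X := Fin m) (⟨a, ha⟩ : Fin B) ⟨a', ha'⟩
            (by simpa using haa)
          rw [Fintype.card_fin] at h5
          rw [← h5]
          refine pr_mono fun h => ?_
          rintro ⟨_, h4⟩
          simp only [Sum.map_inr, Sum.inr.injEq, tab, ha, ha', dif_pos] at h4
          exact h4
  refine (Finset.sum_le_sum h2).trans (le_of_eq ?_)
  rw [Finset.sum_const, Finset.card_product, nsmul_eq_mul]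
  push_cast
  ring

theorem exists_hash {m : ℕ} (hm : 0 < m) {T₁ T₂ : Type} [Fintype T₁] [Nonempty T₁] [Fintype T₂]
    [Nonempty T₂] (S₁ : T₁ → Finset (I ⊕ ℕ)) (S₂ : T₂ → Finset (I ⊕ ℕ)) {s : ℕ}
    (h₁ : ∀ τ, (S₁ τ).card ≤ s) (h₂ : ∀ τ, (S₂ τ).card ≤ s) :
    ∃ h : ℕ → Fin m,
      pr (fun τ => ¬ Set.InjOn (Sum.map id h) (S₁ τ : Set (I ⊕ ℕ))) +
      pr (fun τ => ¬ Set.InjOn (Sum.map id h) (S₂ τ : Set (I ⊕ ℕ))) ≤ 2 * ((s : ℝ) ^ 2 / m) := by
  classical
  have hne : Nonempty (Fin m) := ⟨⟨0, hm⟩⟩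
  have hm' : (0 : ℝ) < m := by exact_mod_cast hm
  -- a bound for the addresses
  let val : I ⊕ ℕ → ℕ := Sum.elim (fun _ => 0) id
  let U : Finset (I ⊕ ℕ) := (Finset.univ.biUnion S₁) ∪ (Finset.univ.biUnion S₂)
  let B : ℕ := U.sup val + 1
  have hB : ∀ a, Sum.inr a ∈ U → a < B := by
    intro a ha
    have : val (Sum.inr a) ≤ U.sup val := Finset.le_sup ha
    exact Nat.lt_succ_of_le this
  have hB₁ : ∀ τ a, Sum.inr a ∈ S₁ τ → a < B := fun τ a ha =>
    hB a (Finset.mem_union_left _ (Finset.mem_biUnion.2 ⟨τ, Finset.mem_univ _, ha⟩))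
  have hB₂ : ∀ τ a, Sum.inr a ∈ S₂ τ → a < B := fun τ a ha =>
    hB a (Finset.mem_union_right _ (Finset.mem_biUnion.2 ⟨τ, Finset.mem_univ _, ha⟩))
  obtain ⟨h, hh⟩ := exists_le_av fun h : Fin B → Fin m =>
    pr (fun τ => ¬ Set.InjOn (Sum.map id (tab hm h)) (S₁ τ : Set (I ⊕ ℕ))) +
    pr (fun τ => ¬ Set.InjOn (Sum.map id (tab hm h)) (S₂ τ : Set (I ⊕ ℕ)))
  refine ⟨tab hm h, hh.trans ?_⟩
  rw [av_add]
  have hone : ∀ {T : Type} [Fintype T] [Nonempty T] (S : T → Finset (I ⊕ ℕ)),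
      (∀ τ, (S τ).card ≤ s) → (∀ τ a, Sum.inr a ∈ S τ → a < B) →
      (av fun h : Fin B → Fin m =>
        pr (fun τ => ¬ Set.InjOn (Sum.map id (tab hm h)) (S τ : Set (I ⊕ ℕ)))) ≤
        (s : ℝ) ^ 2 / m := by
    intro T _ _ S hS hSB
    unfold pr
    rw [av_comm]
    refine av_le fun τ => ?_
    refine (pr_collision hm (S τ) (hSB τ)).trans ?_
    apply div_le_div_of_nonneg_right _ hm'.le
    have : ((S τ).card : ℝ) ≤ s := by exact_mod_cast hS τ
    exact pow_le_pow_left₀ (Nat.cast_nonneg _) this 2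
  have e1 := hone S₁ h₁ hB₁
  have e2 := hone S₂ h₂ hB₂
  linarith

end hash

theorem infl_depOne {V X Y : Type} [Fintype V] [DecidableEq V] [Fintype X] {u : (V → X) → Y}
    (hu : DepOne u) (y : V → X) : infl u y ≤ 1 := by
  obtain ⟨P, h1, h2⟩ := hu
  unfold infl
  have h3 : ∀ p, p ∉ P → (pr fun α : X => u (Function.update y p α) ≠ u y) = 0 := by
    intro p hp
    refine pr_eq_zero fun α h => h (h2 _ _ fun r hr => ?_)
    have : r ≠ p := by rintro rfl; exact hp hr
    simp [this]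
  rw [← Finset.sum_subset (Finset.subset_univ P) fun p _ hp => h3 p hp]
  calc (∑ p ∈ P, pr fun α : X => u (Function.update y p α) ≠ u y) ≤ ∑ _p ∈ P, (1 : ℝ) :=
        Finset.sum_le_sum fun p _ => pr_le_one _
    _ = P.card := by simp
    _ ≤ 1 := by exact_mod_cast h1

theorem infl_const {V X Y : Type} [Fintype V] [DecidableEq V] [Fintype X] (c : Y) (y : V → X) :
    infl (fun _ => c) y = 0 := by
  unfold infl
  exact Finset.sum_eq_zero fun p _ => pr_eq_zero fun α h => h rfl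

/-- The tests with a planted pair. -/
abbrev Test (n k D : ℕ) : Type :=
  (Bool × Fin n → Str k D) × (Fin n × Fin n) × {ab : Str k D × Str k D // Off ab.1 ab.2}

/-- The input of a test. -/
def Test.y {n k D : ℕ} (τ : Test n k D) : Bool × Fin n → Str k D :=
  yAB τ.1 τ.2.1.1 τ.2.1.2 τ.2.2.1.1 τ.2.2.1.2

open Classical in
theorem pr_test {n k D : ℕ} (hn : 0 < n) (hk : 2 ≤ k) (G : (Bool × Fin n → Str k D) → Prop) :
    (n : ℝ) ^ 2 * pr (fun τ : Test n k D => G τ.y) =
    av fun y : Bool × Fin n → Str k D => avR fun a b => ∑ i : Fin n, ∑ j : Fin n,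
      (if G (yAB y i j a b) then (1 : ℝ) else 0) := by
  have hn' : (0 : ℝ) < n := by exact_mod_cast hn
  have h1 : pr (fun τ : Test n k D => G τ.y) = av fun y : Bool × Fin n → Str k D =>
      av fun z : Fin n × Fin n => avR fun a b =>
        (if G (yAB y z.1 z.2 a b) then (1 : ℝ) else 0) := by
    refine Eq.trans (pr_prod fun (y : Bool × Fin n → Str k D) (r : (Fin n × Fin n) ×
      {ab : Str k D × Str k D // Off ab.1 ab.2}) => G (yAB y r.1.1 r.1.2 r.2.1.1 r.2.1.2)) ?_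
    refine av_congr fun y => ?_
    refine Eq.trans (pr_prod fun (z : Fin n × Fin n)
      (w : {ab : Str k D × Str k D // Off ab.1 ab.2}) => G (yAB y z.1 z.2 w.1.1 w.1.2)) ?_
    refine av_congr fun z => ?_
    rw [avR_eq hk]
    rfl
  rw [h1, ← av_mul_left]
  refine av_congr fun y => ?_
  have h2 : (av fun z : Fin n × Fin n => avR fun a b : Str k D =>
        (if G (yAB y z.1 z.2 a b) then (1 : ℝ) else 0)) =
      (∑ z : Fin n × Fin n, avR fun a b : Str k D =>
        (if G (yAB y z.1 z.2 a b) then (1 : ℝ) else 0)) / (n : ℝ) ^ 2 := by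
    unfold av
    rw [Fintype.card_prod, Fintype.card_fin]
    push_cast
    rw [sq]
  rw [h2, mul_div_cancel₀ _ (by positivity), ← avR_sum]
  congr 1
  funext a b
  rw [Fintype.sum_prod_type]

/-- The initial configuration. -/
def start {p n k D : ℕ} {St Wd : Type} (s0 : St) (w0 : Wd) (enc : Bool × Fin n → Str k D → Wd)
    (C : Type) (y : Bool × Fin n → Str k D) : (Fin p → St) × ((Bool × Fin n) ⊕ C → Wd) :=
  (fun _ => s0, Sum.elim (fun q => enc q (y q)) fun _ => w0)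

/-- Machines with few processors do not see the planted pair. -/
theorem det (ε : ℝ) (hε : 0 < ε) : ∃ k : ℕ, 2 ≤ k ∧ ∀ T : ℕ, ∃ n₀ : ℕ, ∀ n ≥ n₀,
    ∀ (D p : ℕ) (St Wd : Type) (A : Mach p ((Bool × Fin n) ⊕ ℕ) St Wd) (s0 : St) (w0 : Wd)
    (enc : Bool × Fin n → Str k D → Wd), (p : ℝ) < (n : ℝ) ^ (2 - ε) →
    ∀ (out : (Bool × Fin n) ⊕ ℕ) (acc : Wd → Bool),
    pr (fun τ : Test n k D => acc ((A.run (start s0 w0 enc ℕ τ.y) T).2 out) = true) ≤
      pr (fun y : Bool × Fin n → Str k D =>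
        acc ((A.run (start s0 w0 enc ℕ y) T).2 out) = true) + 1 / 8 := by
  classical
  obtain ⟨k, hk, hcore'⟩ := core 6 ε hε
  refine ⟨k, hk, fun T => ?_⟩
  obtain ⟨n₀, hcore⟩ := hcore' T
  obtain ⟨n₁, hn₁⟩ := exists_nat_ge (80 * (2 * (T : ℝ) + 1) ^ 2)
  refine ⟨max (max n₀ n₁) 2, ?_⟩
  intro n hn D p St Wd A s0 w0 enc hp out acc
  have hn2 : 2 ≤ n := (le_max_right _ _).trans hn
  have hnn₀ : n₀ ≤ n := (le_max_left _ _).trans ((le_max_left _ _).trans hn)
  have hnn₁ : n₁ ≤ n := (le_max_right _ _).trans ((le_max_left _ _).trans hn)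
  have hn2' : (2 : ℝ) ≤ n := by exact_mod_cast hn2
  have hn1 : (1 : ℝ) ≤ n := by linarith
  have hn0 : (0 : ℝ) < n := by linarith
  have hnT : 80 * (2 * (T : ℝ) + 1) ^ 2 ≤ n := hn₁.trans (by exact_mod_cast hnn₁)
  have hne : Nonempty (Str k D) := ⟨fun _ => ⟨0, by omega⟩⟩
  have hneT : Nonempty (Test n k D) := by
    refine ⟨(fun _ => hne.some, (⟨0, by omega⟩, ⟨0, by omega⟩), ⟨(fun _ => ⟨0, by omega⟩,
      fun _ => ⟨1, by omega⟩), fun c h => ?_⟩)⟩
    simp at h
  -- the number of processors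
  have hp2 : (p : ℝ) ≤ (n : ℝ) ^ 2 := by
    refine hp.le.trans ?_
    calc (n : ℝ) ^ (2 - ε) ≤ (n : ℝ) ^ (2 : ℝ) :=
          Real.rpow_le_rpow_of_exponent_le hn1 (by linarith)
      _ = (n : ℝ) ^ 2 := by
          rw [← Real.rpow_natCast]
          norm_num
  -- hashing
  have hm : 0 < n ^ 5 := by positivity
  let S : (Bool × Fin n → Str k D) → Finset ((Bool × Fin n) ⊕ ℕ) := fun y =>
    insert out (A.touched T (start s0 w0 enc ℕ y))
  have hS : ∀ y, (S y).card ≤ T * p * 2 + 1 := fun y =>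
    (Finset.card_insert_le _ _).trans (Nat.add_le_add_right (A.touched_card T _) 1)
  obtain ⟨h, hh⟩ := exists_hash hm (fun τ : Test n k D => S τ.y) S (fun τ => hS _) hS
  have hcol : 2 * (((T * p * 2 + 1 : ℕ) : ℝ) ^ 2 / ((n ^ 5 : ℕ) : ℝ)) ≤ 1 / 40 := by
    push_cast
    have e1 : (T : ℝ) * p * 2 + 1 ≤ (2 * T + 1) * (n : ℝ) ^ 2 := by
      have hT0 : (0 : ℝ) ≤ T := Nat.cast_nonneg T
      have e2 : (T : ℝ) * p ≤ T * (n : ℝ) ^ 2 := mul_le_mul_of_nonneg_left hp2 hT0
      have e3 : (1 : ℝ) ≤ (n : ℝ) ^ 2 := one_le_pow₀ hn1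
      nlinarith
    have e4 : ((T : ℝ) * p * 2 + 1) ^ 2 ≤ ((2 * T + 1) * (n : ℝ) ^ 2) ^ 2 :=
      pow_le_pow_left₀ (by positivity) e1 2
    rw [← mul_div_assoc, div_le_div_iff₀ (by positivity) (by norm_num)]
    have e5 : (n : ℝ) ^ 4 * (80 * (2 * (T : ℝ) + 1) ^ 2) ≤ (n : ℝ) ^ 4 * n :=
      mul_le_mul_of_nonneg_left hnT (by positivity)
    nlinarith
  -- the hashed machine
  let π : (Bool × Fin n) ⊕ ℕ → (Bool × Fin n) ⊕ Fin (n ^ 5) := Sum.map id h
  let A' := A.map π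
  let R : Run p ((Bool × Fin n) ⊕ Fin (n ^ 5)) St Wd (Bool × Fin n → Str k D) :=
    A'.toRun (start s0 w0 enc (Fin (n ^ 5)))
  have hsame : ∀ y, Set.InjOn π (S y : Set ((Bool × Fin n) ⊕ ℕ)) →
      (A.run (start s0 w0 enc ℕ y) T).2 out = R.ct T (π out) y := by
    intro y hy
    have h1 := A.map_run π T (fun _ => s0) (Sum.elim (fun q => enc q (y q)) fun _ => w0)
      (Sum.elim (fun q => enc q (y q)) fun _ => w0) (S y) hy
      (by
        intro c _
        rcases c with q | a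
        · rfl
        · rfl)
      (fun τ hτ P => Finset.mem_insert_of_mem (A.read_mem T _ τ hτ P))
      (fun τ hτ P w hw => Finset.mem_insert_of_mem (A.write_mem T _ τ hτ P w hw)) T le_rfl
    exact (h1.2 out (Finset.mem_insert_self _ _)).symm
  have hs0 : ∀ P, DepOne (R.st 0 P) := fun P => ⟨∅, by simp, fun x y _ => rfl⟩
  have hc0 : ∀ c, DepOne (R.ct 0 c) := by
    rintro (q | a)
    · refine ⟨{q}, by simp, fun x y hxy => ?_⟩
      show enc q (x q) = enc q (y q)
      rw [hxy q (Finset.mem_singleton_self q)]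
    · exact ⟨∅, by simp, fun x y _ => rfl⟩
  have hB : ∀ y, ∑ c, infl (R.ct 0 c) y ≤ 2 * n := by
    intro y
    rw [Fintype.sum_sum_type]
    have e1 : ∑ q : Bool × Fin n, infl (R.ct 0 (Sum.inl q)) y ≤ 2 * n := by
      calc ∑ q : Bool × Fin n, infl (R.ct 0 (Sum.inl q)) y ≤ ∑ _q : Bool × Fin n, (1 : ℝ) :=
            Finset.sum_le_sum fun q _ => infl_depOne (hc0 _) y
        _ = 2 * n := by simp
    have e2 : ∑ a : Fin (n ^ 5), infl (R.ct 0 (Sum.inr a)) y = 0 :=
      Finset.sum_eq_zero fun a _ => infl_const w0 y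
    rw [e2, add_zero]
    exact e1
  have hcard : Fintype.card ((Bool × Fin n) ⊕ Fin (n ^ 5)) ≤ n ^ 6 := by
    rw [Fintype.card_sum, Fintype.card_prod, Fintype.card_bool, Fintype.card_fin,
      Fintype.card_fin]
    have e1 : n * n ^ 4 = n ^ 5 := by ring
    have e2 : 2 ^ 4 ≤ n ^ 4 := Nat.pow_le_pow_left hn2 4
    have e3 : n ^ 6 = n * n ^ 5 := by ring
    have e4 : 2 * n ≤ n ^ 5 := by nlinarith
    have e5 : 2 * n ^ 5 ≤ n * n ^ 5 := Nat.mul_le_mul_right _ hn2
    omega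
  have hmain := hcore n hnn₀ D p _ St Wd R hs0 hc0 hB hcard hp (π out) acc
  have hpt := pr_test (n := n) (k := k) (D := D) (by omega) hk
    fun y => acc (R.ct T (π out) y) = true
  have hmain' : (n : ℝ) ^ 2 * pr (fun τ : Test n k D => acc (R.ct T (π out) τ.y) = true) ≤
      (n : ℝ) ^ 2 * (pr (fun y : Bool × Fin n → Str k D => acc (R.ct T (π out) y) = true) +
        1 / 10) := by
    rw [hpt]
    refine le_of_eq_of_le ?_ hmain
    refine av_congr fun y => ?_
    congr 1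
    funext a b
    refine Finset.sum_congr rfl fun i _ => Finset.sum_congr rfl fun j _ => ?_
    congr
  have hmain'' := le_of_mul_le_mul_left hmain' (by positivity)
  have g1 : pr (fun τ : Test n k D =>
      acc ((A.run (start s0 w0 enc ℕ τ.y) T).2 out) = true) ≤
      pr (fun τ : Test n k D => acc (R.ct T (π out) τ.y) = true) +
      pr (fun τ : Test n k D => ¬ Set.InjOn (Sum.map id h) (S τ.y : Set ((Bool × Fin n) ⊕ ℕ))) := by
    refine (pr_mono fun τ hτ => ?_).trans (pr_or_le _ _)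
    by_cases hinj : Set.InjOn π (S τ.y : Set ((Bool × Fin n) ⊕ ℕ))
    · left
      rw [← hsame _ hinj]
      exact hτ
    · exact Or.inr hinj
  have g2 : pr (fun y : Bool × Fin n → Str k D => acc (R.ct T (π out) y) = true) ≤
      pr (fun y : Bool × Fin n → Str k D =>
        acc ((A.run (start s0 w0 enc ℕ y) T).2 out) = true) +
      pr (fun y : Bool × Fin n → Str k D =>
        ¬ Set.InjOn (Sum.map id h) (S y : Set ((Bool × Fin n) ⊕ ℕ))) := by
    refine (pr_mono fun y hy => ?_).trans (pr_or_le _ _)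
    by_cases hinj : Set.InjOn π (S y : Set ((Bool × Fin n) ⊕ ℕ))
    · left
      rw [hsame _ hinj]
      exact hy
    · exact Or.inr hinj
  have g3 := hh.trans hcol
  linarith

end Pool.Agent.H58.OVPR
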