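import Pool.Agent.H58.OVPR.Main

/-! Averaging over randomized machines. -/

set_option autoImplicit false
set_option maxHeartbeats 4000000

namespace Pool.Agent.H58.OVPR

open Pool.Agent.H58.OVAC

theorem pmf_exists_le {Γ : Type} (μ : PMF Γ) (f : Γ → ENNReal) (c : ENNReal) (hc : c ≠ ⊤)
    (h : ∑' A, μ A * f A ≤ c) : ∃ A ∈ μ.support, f A ≤ c := by
  by_contra hcon
  push Not at hcon
  obtain ⟨A0, hA0⟩ := μ.support_nonempty
  have h1 : ∑' A, μ A * c = c := by rw [ENNReal.tsum_mul_right, PMF.tsum_coe, one_mul]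
  have h2 : ∑' A, μ A * c < ∑' A, μ A * f A := by
    refine ENNReal.tsum_lt_tsum (i := A0) (by rw [h1]; exact hc) (fun A => ?_) ?_
    · by_cases hA : μ A = 0
      · simp [hA]
      · exact mul_le_mul_right (hcon A ((PMF.mem_support_iff μ A).2 hA)).le _
    · have h3 : μ A0 ≠ 0 := (PMF.mem_support_iff μ A0).1 hA0
      exact (ENNReal.mul_lt_mul_iff_right h3 (μ.apply_ne_top A0)).2 (hcon A0 hA0)
  rw [h1] at h2
  exact absurd h (not_le.2 h2)

theorem pmf_pr {Γ T : Type} [Fintype T] [Nonempty T] (μ : PMF Γ) (E : Γ → T → Prop) (b : T → ℝ)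
    (hb0 : ∀ τ, 0 ≤ b τ) (h : ∀ τ, μ.toOuterMeasure {A | E A τ} ≤ ENNReal.ofReal (b τ)) :
    ∑' A, μ A * ENNReal.ofReal (pr (E A)) ≤ ENNReal.ofReal (av b) := by
  classical
  have hT : (0 : ℝ) < Fintype.card T := by exact_mod_cast Fintype.card_pos
  have h1 : ∀ A, μ A * ENNReal.ofReal (pr (E A)) =
      ENNReal.ofReal (1 / Fintype.card T) * ∑ τ : T, {A | E A τ}.indicator μ A := by
    intro A
    have h2 : pr (E A) = (1 / Fintype.card T) * ∑ τ : T, if E A τ then (1 : ℝ) else 0 := by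
      unfold pr av
      rw [one_div, ← div_eq_inv_mul]
    rw [h2, ENNReal.ofReal_mul (by positivity), ENNReal.ofReal_sum_of_nonneg
      (fun τ _ => by split_ifs <;> norm_num), mul_left_comm, Finset.mul_sum]
    congr 1
    refine Finset.sum_congr rfl fun τ _ => ?_
    by_cases hE : E A τ <;> simp [Set.indicator, hE]
  simp only [h1]
  rw [ENNReal.tsum_mul_left, Summable.tsum_finsetSum (fun _ _ => ENNReal.summable)]
  have h3 : av b = (1 / Fintype.card T) * ∑ τ, b τ := by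
    unfold av
    rw [one_div, ← div_eq_inv_mul]
  rw [h3, ENNReal.ofReal_mul (by positivity), ENNReal.ofReal_sum_of_nonneg (fun τ _ => hb0 τ)]
  refine mul_le_mul_right (Finset.sum_le_sum fun τ _ => ?_) _
  have h4 := h τ
  rwa [PMF.toOuterMeasure_apply] at h4

theorem yao {Γ T₁ T₂ : Type} [Fintype T₁] [Nonempty T₁] [Fintype T₂] [Nonempty T₂] (μ : PMF Γ)
    (E₁ : Γ → T₁ → Prop) (E₂ : Γ → T₂ → Prop) (b₁ : T₁ → ℝ) (b₂ : T₂ → ℝ)
    (hb₁ : ∀ τ, 0 ≤ b₁ τ) (hb₂ : ∀ τ, 0 ≤ b₂ τ)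
    (h₁ : ∀ τ, μ.toOuterMeasure {A | E₁ A τ} ≤ ENNReal.ofReal (b₁ τ))
    (h₂ : ∀ τ, μ.toOuterMeasure {A | E₂ A τ} ≤ ENNReal.ofReal (b₂ τ)) :
    ∃ A ∈ μ.support, pr (E₁ A) + pr (E₂ A) ≤ av b₁ + av b₂ := by
  have h3 := pmf_pr μ E₁ b₁ hb₁ h₁
  have h4 := pmf_pr μ E₂ b₂ hb₂ h₂
  have h5 : ∑' A, μ A * ENNReal.ofReal (pr (E₁ A) + pr (E₂ A)) ≤
      ENNReal.ofReal (av b₁ + av b₂) := by
    rw [ENNReal.ofReal_add (av_nonneg hb₁) (av_nonneg hb₂)]
    refine le_trans (le_of_eq ?_) (add_le_add h3 h4)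
    rw [← ENNReal.tsum_add]
    congr 1
    funext A
    rw [ENNReal.ofReal_add (pr_nonneg _) (pr_nonneg _), mul_add]
  obtain ⟨A, hA, h6⟩ := pmf_exists_le μ _ _ ENNReal.ofReal_ne_top h5
  refine ⟨A, hA, ?_⟩
  rwa [ENNReal.ofReal_le_ofReal_iff (add_nonneg (av_nonneg hb₁) (av_nonneg hb₂))] at h6

/-- The complementary event. -/
theorem compl_le {Γ : Type} (μ : PMF Γ) (P : Γ → Prop)
    (h : (2 / 3 : ENNReal) ≤ μ.toOuterMeasure {A | P A}) :
    μ.toOuterMeasure {A | ¬ P A} ≤ ENNReal.ofReal (1 / 3) := by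
  classical
  have h1 : μ.toOuterMeasure {A | P A} + μ.toOuterMeasure {A | ¬ P A} = 1 := by
    rw [PMF.toOuterMeasure_apply, PMF.toOuterMeasure_apply, ← ENNReal.tsum_add,
      ← PMF.tsum_coe μ]
    congr 1
    funext A
    by_cases h : P A <;> simp [Set.indicator, h]
  have h0 : (2 / 3 : ENNReal) + ENNReal.ofReal (1 / 3) = 1 := by
    have e1 : (2 / 3 : ENNReal) = ENNReal.ofReal (2 / 3) := by
      rw [ENNReal.ofReal_div_of_pos (by norm_num)]
      norm_num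
    rw [e1, ← ENNReal.ofReal_add (by norm_num) (by norm_num)]
    norm_num
  have h2 : (2 / 3 : ENNReal) + μ.toOuterMeasure {A | ¬ P A} ≤ 2 / 3 + ENNReal.ofReal (1 / 3) := by
    rw [h0, ← h1]
    gcongr
  exact (ENNReal.add_le_add_iff_left (ENNReal.div_ne_top (by norm_num) (by norm_num))).1 h2

theorem le_one {Γ : Type} (μ : PMF Γ) (s : Set Γ) : μ.toOuterMeasure s ≤ ENNReal.ofReal 1 := by
  rw [ENNReal.ofReal_one, PMF.toOuterMeasure_apply, ← PMF.tsum_coe μ]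
  exact ENNReal.tsum_le_tsum fun A => Set.indicator_le_self _ _ A

/-- `avR` is the average over the pairs of strings which differ everywhere. -/
theorem avR_eq {k D : ℕ} (hk : 2 ≤ k) (Φ : Str k D → Str k D → ℝ) :
    avR Φ = av fun z : {ab : Str k D × Str k D // Off ab.1 ab.2} => Φ z.1.1 z.1.2 := by
  classical
  have hsum : ∀ Ψ : Str k D → Str k D → ℝ, (∑ z : {ab : Str k D × Str k D // Off ab.1 ab.2},
      Ψ z.1.1 z.1.2) = ∑ a, ∑ b, if Off a b then Ψ a b else 0 := by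
    intro Ψ
    rw [← Fintype.sum_prod_type' (f := fun a b => if Off a b then Ψ a b else 0),
      ← Finset.sum_filter]
    exact (Finset.sum_subtype (Finset.univ.filter fun z : Str k D × Str k D => Off z.1 z.2)
      (fun z => by simp) fun z => Ψ z.1 z.2).symm
  have hcard : ((Fintype.card {ab : Str k D × Str k D // Off ab.1 ab.2} : ℕ) : ℝ) =
      (k * (k - 1) : ℝ) ^ D := by
    rw [← count_pairs hk, ← hsum fun _ _ => (1 : ℝ)]
    simp
  unfold avR av
  rw [hsum, hcard]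

end Pool.Agent.H58.OVPR
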