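import Pool.Agent.H58.OVPR.Chain

/-! Runs of parallel machines as families of functions of the input. -/

set_option autoImplicit false
set_option maxHeartbeats 4000000

namespace Pool.Agent.H58.OVPR

open Pool.Agent.H58.OVAC

/-- The value written to the cell `c`, if any. -/
def item {Cell Wd : Type} [DecidableEq Cell] (w : Option (Cell × Wd)) (c : Cell) : Option Wd :=
  w.bind fun z => if z.1 = c then some z.2 else none

/-- A run of a parallel machine on all inputs: `st τ P x` is the state of the processor `P` at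
time `τ` on the input `x`, and `ct τ c x` is the content of the cell `c`. -/
structure Run (p : ℕ) (Cell St Wd Ω : Type) [DecidableEq Cell] where
  st : ℕ → Fin p → Ω → St
  ct : ℕ → Cell → Ω → Wd
  read : ℕ → Fin p → St → Cell
  next : ℕ → Fin p → St → Wd → St
  write : ℕ → Fin p → St → Option (Cell × Wd)
  hst : ∀ τ P x, st (τ + 1) P x = next τ P (st τ P x) (ct τ (read τ P (st τ P x)) x)
  hct : ∀ τ c x, ((∀ k, item (write τ k (st (τ + 1) k x)) c = none) ∧
      ct (τ + 1) c x = ct τ c x) ∨
    ∃ k, (∀ l < k, item (write τ l (st (τ + 1) l x)) c = none) ∧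
      item (write τ k (st (τ + 1) k x)) c = some (ct (τ + 1) c x)

section

variable {p : ℕ} {Cell St Wd Ω Ω' : Type} [DecidableEq Cell]

/-- Change of the input space. -/
def Run.comp (R : Run p Cell St Wd Ω) (ρ : Ω' → Ω) : Run p Cell St Wd Ω' where
  st τ P x := R.st τ P (ρ x)
  ct τ c x := R.ct τ c (ρ x)
  read := R.read
  next := R.next
  write := R.write
  hst τ P x := R.hst τ P (ρ x)
  hct τ c x := R.hct τ c (ρ x)

/-- Start one step later. -/
def Run.shift (R : Run p Cell St Wd Ω) : Run p Cell St Wd Ω where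
  st τ := R.st (τ + 1)
  ct τ := R.ct (τ + 1)
  read τ := R.read (τ + 1)
  next τ := R.next (τ + 1)
  write τ := R.write (τ + 1)
  hst τ P x := R.hst (τ + 1) P x
  hct τ c x := R.hct (τ + 1) c x

end

theorem isJunta_read {V Cell St Wd Y : Type} {t : ℕ} {s : (V → Bool) → St}
    (hs : IsJunta t s) (r : St → Cell) {F : Cell → (V → Bool) → Wd} (hF : ∀ c, IsJunta t (F c))
    (g : St → Wd → Y) : IsJunta (t + 2 ^ t * t) fun σ => g (s σ) (F (r (s σ)) σ) := by
  classical
  obtain ⟨J, hJ1, hJ2⟩ := hs
  choose JF hF1 hF2 using hF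
  refine ⟨J ∪ J.powerset.biUnion fun B => JF (r (s fun i => decide (i ∈ B))), ?_, ?_⟩
  · calc _ ≤ J.card + (J.powerset.biUnion fun B => JF (r (s fun i => decide (i ∈ B)))).card :=
        Finset.card_union_le _ _
      _ ≤ J.card + J.powerset.card * t :=
        Nat.add_le_add_left (Finset.card_biUnion_le_card_mul _ _ _ fun B _ => hF1 _) _
      _ ≤ t + 2 ^ t * t := by
        rw [Finset.card_powerset]
        gcongr
        norm_num
  · intro σ τ h
    have h1 : s σ = s τ := hJ2 σ τ fun i hi => h i (Finset.mem_union_left _ hi)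
    have h2 : s σ = s fun i => decide (i ∈ J.filter fun i => σ i = true) := by
      apply hJ2
      intro i hi
      simp [hi]
    have h3 : F (r (s σ)) σ = F (r (s σ)) τ := by
      apply hF2
      intro i hi
      apply h
      apply Finset.mem_union_right
      refine Finset.mem_biUnion.2 ⟨J.filter fun i => σ i = true,
        Finset.mem_powerset.2 (Finset.filter_subset _ _), ?_⟩
      rw [← h2]
      exact hi
    show g (s σ) (F (r (s σ)) σ) = g (s τ) (F (r (s τ)) τ)
    rw [← h1, h3]

theorem run_tail (T : ℕ) : ∀ t K : ℕ, ∃ t' N₀ : ℕ, ∀ N ≥ N₀, ∀ (V : Type) [Fintype V]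
    [DecidableEq V] (p : ℕ) (Cell St Wd : Type) [Fintype Cell] [DecidableEq Cell]
    (R : Run p Cell St Wd (V → Bool)), (∀ P, IsJunta t (R.st 0 P)) →
    (∀ c, IsJunta t (R.ct 0 c)) → ∀ G : ℕ, (p + 1) * Fintype.card Cell ≤ G → ∀ τ ≤ T,
    (∀ P, pr (fun σ : V → Bool => t' * N ^ T < sens (R.st τ P) σ) ≤ (G : ℝ) / (N : ℝ) ^ K) ∧
    (∀ c, pr (fun σ : V → Bool => t' * N ^ T < sens (R.ct τ c) σ) ≤ (G : ℝ) / (N : ℝ) ^ K) := by
  induction T with
  | zero =>
    intro t K
    refine ⟨t, 0, fun N _ V _ _ p Cell St Wd _ _ R hs hc G _ τ hτ => ?_⟩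
    have hτ0 : τ = 0 := Nat.le_zero.1 hτ
    subst hτ0
    constructor
    · intro P
      rw [pr_eq_zero]
      · positivity
      · intro σ hσ
        have := sens_le_of_isJunta (hs P) σ
        rw [pow_zero, mul_one] at hσ
        omega
    · intro c
      rw [pr_eq_zero]
      · positivity
      · intro σ hσ
        have := sens_le_of_isJunta (hc c) σ
        rw [pow_zero, mul_one] at hσ
        omega
  | succ T ih =>
    intro t K
    obtain ⟨ts, hts⟩ : ∃ ts : ℕ, ts = t + 2 ^ t * t := ⟨_, rfl⟩
    obtain ⟨s, N₁, hs⟩ := fss ts (K + 2)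
    obtain ⟨t₁, ht₁⟩ : ∃ t₁ : ℕ, t₁ = 4 ^ s * (s + ts) + ts := ⟨_, rfl⟩
    obtain ⟨t', N₂, ht'⟩ := ih t₁ (K + 2)
    refine ⟨max t t', max 2 (max N₁ N₂), ?_⟩
    intro N hN V _ _ p Cell St Wd _ _ R hs0 hc0 G hG τ hτ
    classical
    have hN2 : 2 ≤ N := (le_max_left _ _).trans hN
    have hNN1 : N₁ ≤ N := (le_max_left _ _).trans ((le_max_right _ _).trans hN)
    have hNN2 : N₂ ≤ N := (le_max_right _ _).trans ((le_max_right _ _).trans hN)
    have hN' : (2 : ℝ) ≤ N := by exact_mod_cast hN2
    have hN0 : (0 : ℝ) < N := by linarith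
    have hNe : Nonempty (Fin N) := ⟨⟨0, by omega⟩⟩
    have htt : ts ≤ t₁ := by rw [ht₁]; exact Nat.le_add_left _ _
    have ht0 : t ≤ ts := by rw [hts]; exact Nat.le_add_right _ _
    -- everything after one step
    have hst1 : ∀ P, IsJunta ts (R.st 1 P) := by
      intro P
      have h1 := isJunta_read (hs0 P) (R.read 0 P) hc0 (R.next 0 P)
      have h2 : R.st 1 P = fun σ => R.next 0 P (R.st 0 P σ)
          (R.ct 0 (R.read 0 P (R.st 0 P σ)) σ) := by
        funext σ
        exact R.hst 0 P σ
      rw [h2, hts]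
      exact h1
    let e : Cell → Fin p → (V → Bool) → Option Wd := fun c k σ =>
      item (R.write 0 k (R.st 1 k σ)) c
    have he : ∀ c k, IsJunta ts (e c k) := fun c k =>
      (hst1 k).comp fun s => item (R.write 0 k s) c
    let f : Cell → ℕ → BF V := fun c k σ => decide (∃ l : Fin p, l.1 < k ∧ e c l σ ≠ none)
    have hcert : ∀ c k, Cert ts (f c k) := by
      intro c k
      refine cert_of_or {g | ∃ l : Fin p, l.1 < k ∧ g = fun σ => decide (e c l σ ≠ none)} ?_ ?_
      · rintro _ ⟨l, _, rfl⟩
        exact (he c l).comp fun o => decide (o ≠ none)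
      · intro σ
        simp only [f, decide_eq_true_eq]
        constructor
        · rintro ⟨l, h1, h2⟩
          exact ⟨_, ⟨l, h1, rfl⟩, by simpa using h2⟩
        · rintro ⟨_, ⟨l, h1, rfl⟩, h2⟩
          exact ⟨l, h1, by simpa using h2⟩
    -- one colour
    have hgood : ∀ (j : Fin N) (ω : V → Fin N × Bool),
        (¬ ∃ z ∈ (Finset.univ : Finset Cell) ×ˢ Finset.range (p + 1),
          ¬ IsJunta s (restr ω j (f z.1 z.2))) →
        ∀ τ ≤ T, (∀ P, pr (fun σ : V → Bool => t' * N ^ T < sens (restr ω j (R.st (τ + 1) P)) σ) ≤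
          (G : ℝ) / (N : ℝ) ^ (K + 2)) ∧
        (∀ c, pr (fun σ : V → Bool => t' * N ^ T < sens (restr ω j (R.ct (τ + 1) c)) σ) ≤
          (G : ℝ) / (N : ℝ) ^ (K + 2)) := by
      intro j ω hgood τ hτ
      push Not at hgood
      have h1 := ht' N hNN2 V p Cell St Wd
        (R.shift.comp fun (τ : V → Bool) (i : V) => if (ω i).1 = j then τ i else (ω i).2)
        (fun P => ((hst1 P).restr ω j).mono htt) ?_ G hG τ hτ
      · exact h1
      · intro c
        have h2 : IsJunta t₁ (restr ω j (R.ct 1 c)) := by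
          rw [ht₁]
          refine isJunta_list (fun k => restr ω j (e c k)) (restr ω j (R.ct 0 c)) _ ?_
            (fun k => (he c k).restr ω j) (((hc0 c).mono ht0).restr ω j) ?_
          · intro σ
            exact R.hct 0 c _
          · intro k hk
            have h3 := hgood (c, k) (Finset.mem_product.2
              ⟨Finset.mem_univ _, Finset.mem_range.2 (by omega)⟩)
            exact h3
        exact h2
    have hbad : ∀ j : Fin N, pr (fun ω : V → Fin N × Bool =>
        ∃ z ∈ (Finset.univ : Finset Cell) ×ˢ Finset.range (p + 1),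
          ¬ IsJunta s (restr ω j (f z.1 z.2))) ≤ (G : ℝ) / (N : ℝ) ^ (K + 2) := by
      intro j
      refine (pr_exists_le _ _).trans ?_
      have h3 : ∀ z ∈ (Finset.univ : Finset Cell) ×ˢ Finset.range (p + 1),
          pr (fun ω : V → Fin N × Bool => ¬ IsJunta s (restr ω j (f z.1 z.2))) ≤
            1 / (N : ℝ) ^ (K + 2) := fun z _ => hs N hNN1 V j _ (hcert z.1 z.2)
      refine (Finset.sum_le_sum h3).trans ?_
      rw [Finset.sum_const, nsmul_eq_mul, mul_one_div]
      apply div_le_div_of_nonneg_right _ (by positivity)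
      have h4 : ((Finset.univ : Finset Cell) ×ˢ Finset.range (p + 1)).card ≤ G := by
        rw [Finset.card_product, Finset.card_range, Finset.card_univ, mul_comm]
        exact hG
      exact_mod_cast h4
    have hmix : ∀ {Y : Type} (u : (V → Bool) → Y),
        (∀ (j : Fin N) (ω : V → Fin N × Bool),
          (¬ ∃ z ∈ (Finset.univ : Finset Cell) ×ˢ Finset.range (p + 1),
            ¬ IsJunta s (restr ω j (f z.1 z.2))) →
          pr (fun σ : V → Bool => t' * N ^ T < sens (restr ω j u) σ) ≤
            (G : ℝ) / (N : ℝ) ^ (K + 2)) →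
        pr (fun σ : V → Bool => max t t' * N ^ (T + 1) < sens u σ) ≤ (G : ℝ) / (N : ℝ) ^ K := by
      intro Y u hu
      have h1 : ∀ j : Fin N, (av fun ω : V → Fin N × Bool => pr fun σ : V → Bool =>
          t' * N ^ T < sens (restr ω j u) σ) ≤ 2 * G / (N : ℝ) ^ (K + 2) := by
        intro j
        have hω : ∀ ω : V → Fin N × Bool, (pr fun σ : V → Bool =>
            t' * N ^ T < sens (restr ω j u) σ) ≤
            (if ∃ z ∈ (Finset.univ : Finset Cell) ×ˢ Finset.range (p + 1),
              ¬ IsJunta s (restr ω j (f z.1 z.2)) then (1 : ℝ) else 0) +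
              G / (N : ℝ) ^ (K + 2) := by
          intro ω
          by_cases hb : ∃ z ∈ (Finset.univ : Finset Cell) ×ˢ Finset.range (p + 1),
              ¬ IsJunta s (restr ω j (f z.1 z.2))
          · rw [if_pos hb]
            have h5 : (0 : ℝ) ≤ G / (N : ℝ) ^ (K + 2) := by positivity
            have h6 := pr_le_one (fun σ : V → Bool => t' * N ^ T < sens (restr ω j u) σ)
            linarith
          · rw [if_neg hb, zero_add]
            exact hu j ω hb
        refine (av_mono hω).trans ?_
        rw [av_add]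
        have h8 : (av fun _ : V → Fin N × Bool => (G : ℝ) / (N : ℝ) ^ (K + 2)) =
            G / (N : ℝ) ^ (K + 2) := av_const _
        rw [h8]
        calc _ ≤ G / (N : ℝ) ^ (K + 2) + G / (N : ℝ) ^ (K + 2) := by
              gcongr
              refine le_of_eq_of_le ?_ (hbad j)
              unfold pr
              exact av_congr fun ω => by congr
          _ = 2 * G / (N : ℝ) ^ (K + 2) := by ring
      have h2 := sens_part (by omega : 1 ≤ N) u (t' * N ^ T) h1
      refine le_trans (pr_mono fun σ hσ => ?_) (h2.trans ?_)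
      · refine lt_of_le_of_lt ?_ hσ
        calc N * (t' * N ^ T) = t' * N ^ (T + 1) := by ring
          _ ≤ _ := Nat.mul_le_mul_right _ (le_max_right _ _)
      · have hG0 : (0 : ℝ) ≤ G := Nat.cast_nonneg G
        have hK : (0 : ℝ) < (N : ℝ) ^ K := by positivity
        rw [pow_add, mul_div_assoc', div_le_div_iff₀ (by positivity) hK]
        have h9 : (N : ℝ) * (2 * G) * N ^ K = (G * N ^ K * N) * 2 := by ring
        have h10 : (G : ℝ) * (N ^ K * N ^ 2) = (G * N ^ K * N) * N := by ring
        rw [h9, h10]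
        exact mul_le_mul_of_nonneg_left hN' (by positivity)
    have hzero : ∀ {Y : Type} (u : (V → Bool) → Y), IsJunta t u →
        pr (fun σ : V → Bool => max t t' * N ^ (T + 1) < sens u σ) ≤ (G : ℝ) / (N : ℝ) ^ K := by
      intro Y u hu
      rw [pr_eq_zero]
      · positivity
      · intro σ hσ
        have h1 := sens_le_of_isJunta hu σ
        have h2 : 1 ≤ N ^ (T + 1) := Nat.one_le_pow _ _ (by omega)
        have h3 : t ≤ max t t' * N ^ (T + 1) :=
          (le_max_left t t').trans (Nat.le_mul_of_pos_right _ (by omega))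
        omega
    rcases Nat.eq_zero_or_pos τ with h0 | hpos
    · subst h0
      exact ⟨fun P => hzero _ (hs0 P), fun c => hzero _ (hc0 c)⟩
    · obtain ⟨τ', rfl⟩ : ∃ τ', τ = τ' + 1 := ⟨τ - 1, by omega⟩
      exact ⟨fun P => hmix _ fun j ω h => (hgood j ω h τ' (by omega)).1 P,
        fun c => hmix _ fun j ω h => (hgood j ω h τ' (by omega)).2 c⟩

end Pool.Agent.H58.OVPR
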