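import Pool.Agent.H58.OVPR.Run

/-! Influences at random inputs over a large alphabet. -/

set_option autoImplicit false
set_option maxHeartbeats 4000000

namespace Pool.Agent.H58.OVPR

open Pool.Agent.H58.OVAC

/-- The function depends on at most one position. -/
def DepOne {V X Y : Type} (u : (V → X) → Y) : Prop :=
  ∃ P : Finset V, P.card ≤ 1 ∧ ∀ x y : V → X, (∀ p ∈ P, x p = y p) → u x = u y

/-- The point of the menu given by `y` and `y'`. -/
def pick {V X : Type} (y y' : V → X) (σ : V → Bool) : V → X := fun p => if σ p then y' p else y p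

theorem DepOne.pick {V X Y : Type} {u : (V → X) → Y} (hu : DepOne u) (y y' : V → X) :
    IsJunta 1 (fun σ => u (pick y y' σ)) := by
  obtain ⟨P, h1, h2⟩ := hu
  refine ⟨P, h1, fun σ τ h => h2 _ _ fun p hp => ?_⟩
  simp only [OVPR.pick, h p hp]

section

variable {V X Y : Type} [Fintype V] [DecidableEq V] [Fintype X]

/-- The total influence of the positions on `u` at `y`. -/
noncomputable def infl (u : (V → X) → Y) (y : V → X) : ℝ :=
  ∑ p, pr fun α : X => u (Function.update y p α) ≠ u y

theorem infl_nonneg (u : (V → X) → Y) (y : V → X) : 0 ≤ infl u y :=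
  Finset.sum_nonneg fun _ _ => pr_nonneg _

/-- The marginal distribution at one position. -/
theorem pr_coord [Nonempty X] (p : V) (Q : X → Prop) :
    pr (fun ω : V → X => Q (ω p)) = pr Q := by
  have h := pr_forall_mem (V := V) {p} fun _ => Q
  simpa using h

theorem infl_eq [Nonempty X] (u : (V → X) → Y) (y : V → X) :
    infl u y = av fun y' : V → X => (sens (fun σ => u (pick y y' σ)) (fun _ => false) : ℝ) := by
  classical
  unfold infl sens
  have h1 : ∀ y' : V → X, ((Finset.univ.filter fun i =>
      u (pick y y' (flip (fun _ => false) i)) ≠ u (pick y y' fun _ => false)).card : ℝ) =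
      ∑ p, if u (Function.update y p (y' p)) ≠ u y then (1 : ℝ) else 0 := by
    intro y'
    rw [Finset.card_filter]
    push_cast
    apply Finset.sum_congr rfl
    intro p _
    have h2 : pick y y' (fun _ => false) = y := by
      funext k
      simp [pick]
    have h3 : pick y y' (flip (fun _ => false) p) = Function.update y p (y' p) := by
      funext k
      unfold pick
      by_cases hk : k = p
      · subst hk
        simp [flip]
      · simp [flip, hk]
    rw [h2, h3]
  rw [av_congr h1, av_sum]
  apply Finset.sum_congr rfl
  intro p _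
  rw [← pr_coord p fun α : X => u (Function.update y p α) ≠ u y]
  unfold pr
  exact av_congr fun ω => by congr

omit [Fintype X] in
theorem sens_mix (u : (V → X) → Y) (σ : V → Bool) (a b : V → X) :
    sens (fun ρ => u (pick (mix (Finset.univ.filter fun p => σ p = true) a b)
      (mix (Finset.univ.filter fun p => σ p = true) b a) ρ)) (fun _ => false) =
    sens (fun ρ => u (pick b a ρ)) σ := by
  classical
  unfold sens
  congr 1
  apply Finset.filter_congr
  intro p _
  show u (pick _ _ (flip (fun _ => false) p)) ≠ u (pick _ _ fun _ => false) ↔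
    u (pick b a (flip σ p)) ≠ u (pick b a σ)
  have h1 : pick (mix (Finset.univ.filter fun p => σ p = true) a b)
      (mix (Finset.univ.filter fun p => σ p = true) b a) (fun _ => false) = pick b a σ := by
    unfold pick mix
    funext k
    cases hk : σ k <;> simp [hk]
  have h2 : pick (mix (Finset.univ.filter fun p => σ p = true) a b)
      (mix (Finset.univ.filter fun p => σ p = true) b a) (flip (fun _ => false) p) =
      pick b a (flip σ p) := by
    unfold pick mix
    funext k
    by_cases hkp : k = p
    · subst hkp
      cases hk : σ k <;> simp [flip, hk]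
    · cases hk : σ k <;> simp [flip, hk, hkp]
  rw [h1, h2]

end

theorem infl_tail {V X Y : Type} [Fintype V] [DecidableEq V] [Fintype X] [Nonempty X]
    (u : (V → X) → Y) (S : ℕ) {δ : ℝ}
    (h : ∀ y y' : V → X, pr (fun σ : V → Bool => S < sens (fun ρ => u (pick y y' ρ)) σ) ≤ δ) :
    pr (fun y : V → X => (S : ℝ) + 1 < infl u y) ≤ (Fintype.card V : ℝ) * δ := by
  classical
  have h1 : (av fun a : V → X => pr fun b : V → X =>
      S < sens (fun ρ => u (pick a b ρ)) (fun _ => false)) ≤ δ := by
    have h2 : ∀ σ : V → Bool, (av fun a : V → X => pr fun b : V → X =>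
        S < sens (fun ρ => u (pick a b ρ)) (fun _ => false)) =
        av fun a : V → X => pr fun b : V → X => S < sens (fun ρ => u (pick b a ρ)) σ := by
      intro σ
      have h3 := av_mix₂ (Finset.univ.filter fun p => σ p = true)
        (fun a b : V → X => if S < sens (fun ρ => u (pick a b ρ)) (fun _ => false)
          then (1 : ℝ) else 0)
      unfold pr
      refine (Eq.trans ?_ h3.symm).trans ?_
      · exact av_congr fun a => av_congr fun b => by congr
      · refine av_congr fun a => av_congr fun b => ?_
        rw [sens_mix]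
        congr
    have h4 : (av fun a : V → X => pr fun b : V → X =>
        S < sens (fun ρ => u (pick a b ρ)) (fun _ => false)) =
        av fun a : V → X => av fun b : V → X => pr fun σ : V → Bool =>
          S < sens (fun ρ => u (pick b a ρ)) σ := by
      calc _ = av fun _ : V → Bool => (av fun a : V → X => pr fun b : V → X =>
              S < sens (fun ρ => u (pick a b ρ)) (fun _ => false)) := (av_const _).symm
        _ = av fun σ : V → Bool => av fun a : V → X => pr fun b : V → X =>
              S < sens (fun ρ => u (pick b a ρ)) σ := av_congr h2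
        _ = _ := by
            rw [av_comm]
            refine av_congr fun a => ?_
            unfold pr
            rw [av_comm]
    rw [h4]
    exact av_le fun a => av_le fun b => h b a
  -- Markov
  have h5 : ∀ y : V → X, (S : ℝ) + 1 < infl u y →
      1 < (Fintype.card V : ℝ) * pr fun b : V → X =>
        S < sens (fun ρ => u (pick y b ρ)) (fun _ => false) := by
    intro y hy
    rw [infl_eq] at hy
    have h6 : ∀ b : V → X, (sens (fun ρ => u (pick y b ρ)) (fun _ => false) : ℝ) ≤
        S + Fintype.card V * (if S < sens (fun ρ => u (pick y b ρ)) (fun _ => false)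
          then (1 : ℝ) else 0) := by
      intro b
      have h7 : (sens (fun ρ => u (pick y b ρ)) (fun _ => false) : ℝ) ≤ Fintype.card V := by
        exact_mod_cast Finset.card_le_univ _
      by_cases h8 : S < sens (fun ρ => u (pick y b ρ)) (fun _ => false)
      · rw [if_pos h8, mul_one]
        have : (0 : ℝ) ≤ S := Nat.cast_nonneg S
        linarith
      · rw [if_neg h8, mul_zero, add_zero]
        exact_mod_cast not_lt.1 h8
    have h9 := av_mono h6
    rw [av_add, av_mul_left] at h9
    have h10 : (av fun _ : V → X => (S : ℝ)) = S := av_const _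
    rw [h10] at h9
    have h11 : (av fun b : V → X => if S < sens (fun ρ => u (pick y b ρ)) (fun _ => false)
        then (1 : ℝ) else 0) =
        pr fun b : V → X => S < sens (fun ρ => u (pick y b ρ)) (fun _ => false) := by
      unfold pr
      exact av_congr fun ω => by congr
    rw [h11] at h9
    linarith
  calc pr (fun y : V → X => (S : ℝ) + 1 < infl u y)
      ≤ av fun y : V → X => (Fintype.card V : ℝ) * pr fun b : V → X =>
        S < sens (fun ρ => u (pick y b ρ)) (fun _ => false) := by
        unfold pr
        refine av_mono fun y => ?_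
        by_cases hy : (S : ℝ) + 1 < infl u y
        · rw [if_pos hy]
          exact (h5 y hy).le
        · rw [if_neg hy]
          exact mul_nonneg (Nat.cast_nonneg _) (pr_nonneg _)
    _ = (Fintype.card V : ℝ) * av fun y : V → X => pr fun b : V → X =>
        S < sens (fun ρ => u (pick y b ρ)) (fun _ => false) := av_mul_left _ _
    _ ≤ _ := mul_le_mul_of_nonneg_left h1 (Nat.cast_nonneg _)

/-- The influences of all states and contents of a run on random inputs. -/
theorem run_infl (T K : ℕ) : ∃ t' N₀ : ℕ, ∀ N ≥ N₀, ∀ (V X : Type) [Fintype V]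
    [DecidableEq V] [Fintype X] [Nonempty X] (p : ℕ) (Cell St Wd : Type) [Fintype Cell]
    [DecidableEq Cell] (R : Run p Cell St Wd (V → X)), (∀ P, DepOne (R.st 0 P)) →
    (∀ c, DepOne (R.ct 0 c)) → ∀ G : ℕ, (p + 1) * Fintype.card Cell ≤ G → ∀ τ ≤ T,
    (∀ P, pr (fun y : V → X => ((t' * N ^ T : ℕ) : ℝ) + 1 < infl (R.st τ P) y) ≤
      (Fintype.card V : ℝ) * ((G : ℝ) / (N : ℝ) ^ K)) ∧
    (∀ c, pr (fun y : V → X => ((t' * N ^ T : ℕ) : ℝ) + 1 < infl (R.ct τ c) y) ≤
      (Fintype.card V : ℝ) * ((G : ℝ) / (N : ℝ) ^ K)) := by
  obtain ⟨t', N₀, h⟩ := run_tail T 1 K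
  refine ⟨t', N₀, ?_⟩
  intro N hN V X _ _ _ _ p Cell St Wd _ _ R hs hc G hG τ hτ
  have h1 : ∀ y y' : V → X, _ := fun y y' => h N hN V p Cell St Wd (R.comp (pick y y'))
    (fun P => (hs P).pick y y') (fun c => (hc c).pick y y') G hG τ hτ
  exact ⟨fun P => infl_tail _ _ fun y y' => (h1 y y').1 P,
    fun c => infl_tail _ _ fun y y' => (h1 y y').2 c⟩

end Pool.Agent.H58.OVPR
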