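import Pool.Agent.H58.OVPR.Sens

/-! Increasing chains of juntas are short; decision lists. -/

set_option autoImplicit false
set_option maxHeartbeats 4000000

namespace Pool.Agent.H58.OVPR

open Pool.Agent.H58.OVAC

section

variable {V : Type} [DecidableEq V] [Fintype V]

theorem pr_agree (J : Finset V) (a : V → Bool) :
    pr (fun σ : V → Bool => ∀ i ∈ J, σ i = a i) = (1 / 2 : ℝ) ^ J.card := by
  rw [pr_forall_mem J fun i (x : Bool) => x = a i]
  have h : ∀ i ∈ J, (pr fun x : Bool => x = a i) = 1 / 2 := by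
    intro i _
    unfold pr av
    cases a i <;> simp
  rw [Finset.prod_congr rfl h, Finset.prod_const]

theorem jump_le {s p : ℕ} (f : ℕ → BF V) (hmono : ∀ k σ, f k σ = true → f (k + 1) σ = true)
    (hf : ∀ k ≤ p, IsJunta s (f k)) (K : Finset ℕ) (hK : ∀ k ∈ K, k < p ∧ f k ≠ f (k + 1)) :
    K.card ≤ 4 ^ s := by
  classical
  have hstep : ∀ k ∈ K, (1 / 4 : ℝ) ^ s ≤
      pr (fun σ => f (k + 1) σ = true) - pr (fun σ => f k σ = true) := by
    intro k hk
    obtain ⟨h1, h2⟩ := hK k hk
    obtain ⟨J₁, hJ₁, hJ₁'⟩ := hf k h1.le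
    obtain ⟨J₂, hJ₂, hJ₂'⟩ := hf (k + 1) h1
    obtain ⟨a, ha⟩ := Function.ne_iff.1 h2
    have ha1 : f k a = false := by
      by_contra h
      rw [Bool.not_eq_false] at h
      exact ha (by rw [h, hmono k a h])
    have ha2 : f (k + 1) a = true := by
      by_contra h
      rw [Bool.not_eq_true] at h
      exact ha (by rw [h, ha1])
    have h3 : pr (fun σ : V → Bool => ∀ i ∈ J₁ ∪ J₂, σ i = a i) + pr (fun σ => f k σ = true) ≤
        pr (fun σ => f (k + 1) σ = true) := by
      unfold pr
      rw [← av_add]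
      refine av_mono fun σ => ?_
      by_cases h4 : ∀ i ∈ J₁ ∪ J₂, σ i = a i
      · have h5 : f k σ = false := by
          rw [hJ₁' σ a fun i hi => h4 i (Finset.mem_union_left _ hi), ha1]
        have h6 : f (k + 1) σ = true := by
          rw [hJ₂' σ a fun i hi => h4 i (Finset.mem_union_right _ hi), ha2]
        have h5' : ¬ (f k σ = true) := by rw [h5]; decide
        rw [if_pos h4, if_pos h6, if_neg h5', add_zero]
      · rw [if_neg h4, zero_add]
        by_cases h5 : f k σ = true
        · rw [if_pos h5, if_pos (hmono k σ h5)]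
        · rw [if_neg h5]
          split_ifs <;> norm_num
    have h7 : (1 / 4 : ℝ) ^ s ≤ pr (fun σ : V → Bool => ∀ i ∈ J₁ ∪ J₂, σ i = a i) := by
      rw [pr_agree]
      have h8 : (J₁ ∪ J₂).card ≤ 2 * s := (Finset.card_union_le _ _).trans (by omega)
      calc (1 / 4 : ℝ) ^ s = (1 / 2) ^ (2 * s) := by
            rw [pow_mul]
            norm_num
        _ ≤ _ := pow_le_pow_of_le_one (by norm_num) (by norm_num) h8
    linarith
  have hmonoR : ∀ k, pr (fun σ => f k σ = true) ≤ pr (fun σ => f (k + 1) σ = true) :=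
    fun k => pr_mono fun σ => hmono k σ
  have h9 : ∑ k ∈ K, (pr (fun σ => f (k + 1) σ = true) - pr (fun σ => f k σ = true)) ≤
      ∑ k ∈ Finset.range p, (pr (fun σ => f (k + 1) σ = true) - pr (fun σ => f k σ = true)) :=
    Finset.sum_le_sum_of_subset_of_nonneg
      (fun k hk => Finset.mem_range.2 (hK k hk).1) fun k _ _ => sub_nonneg.2 (hmonoR k)
  rw [Finset.sum_range_sub (fun k => pr (fun σ => f k σ = true))] at h9
  have h10 : (K.card : ℝ) * (1 / 4) ^ s ≤ 1 := by
    calc (K.card : ℝ) * (1 / 4) ^ s = ∑ _k ∈ K, (1 / 4 : ℝ) ^ s := by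
          rw [Finset.sum_const, nsmul_eq_mul]
      _ ≤ _ := Finset.sum_le_sum hstep
      _ ≤ _ := h9
      _ ≤ 1 := by
          have h11 := pr_le_one (fun σ => f p σ = true)
          have h12 := pr_nonneg (fun σ => f 0 σ = true)
          linarith
  have h13 : (K.card : ℝ) ≤ 4 ^ s := by
    rw [one_div, inv_pow, ← div_eq_mul_inv, div_le_one (by positivity)] at h10
    exact h10
  exact_mod_cast h13

omit [DecidableEq V] in
open Classical in
/-- A decision list whose prefixes are juntas is a junta. -/
theorem isJunta_list {Y : Type} {p s t : ℕ} (e : Fin p → (V → Bool) → Option Y)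
    (d D : (V → Bool) → Y)
    (hD : ∀ σ, ((∀ k, e k σ = none) ∧ D σ = d σ) ∨
      ∃ k, (∀ l < k, e l σ = none) ∧ e k σ = some (D σ))
    (he : ∀ k, IsJunta t (e k)) (hd : IsJunta t d)
    (hf : ∀ k ≤ p, IsJunta s (fun σ => decide (∃ l : Fin p, l.1 < k ∧ e l σ ≠ none))) :
    IsJunta (4 ^ s * (s + t) + t) D := by
  set f : ℕ → BF V := fun k σ => decide (∃ l : Fin p, l.1 < k ∧ e l σ ≠ none) with hfdef
  have hmono : ∀ k σ, f k σ = true → f (k + 1) σ = true := by
    intro k σ h
    simp only [hfdef, decide_eq_true_eq] at h ⊢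
    obtain ⟨l, h1, h2⟩ := h
    exact ⟨l, by omega, h2⟩
  let K : Finset ℕ := (Finset.range p).filter fun k => f k ≠ f (k + 1)
  have hK : ∀ k ∈ K, k < p ∧ f k ≠ f (k + 1) := by
    intro k hk
    exact ⟨Finset.mem_range.1 (Finset.mem_filter.1 hk).1, (Finset.mem_filter.1 hk).2⟩
  have hKcard := jump_le f hmono hf K hK
  choose Je hJe1 hJe2 using he
  obtain ⟨Jd, hJd1, hJd2⟩ := hd
  have hf' : ∀ k : ℕ, ∃ J : Finset V, J.card ≤ s ∧
      (k ≤ p → ∀ σ τ : V → Bool, (∀ i ∈ J, σ i = τ i) → f k σ = f k τ) := by
    intro k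
    by_cases hk : k ≤ p
    · obtain ⟨J, h1, h2⟩ := hf k hk
      exact ⟨J, h1, fun _ => h2⟩
    · exact ⟨∅, by simp, fun h => absurd h hk⟩
  choose Jf hJf1 hJf2 using hf'
  let Je' : ℕ → Finset V := fun k => if h : k < p then Je ⟨k, h⟩ else ∅
  have hJe' : ∀ k, (Je' k).card ≤ t := by
    intro k
    simp only [Je']
    split_ifs with h
    · exact hJe1 _
    · simp
  refine ⟨(K.biUnion fun k => Jf (k + 1) ∪ Je' k) ∪ Jd, ?_, ?_⟩
  · refine (Finset.card_union_le _ _).trans (Nat.add_le_add ?_ hJd1)
    refine (Finset.card_biUnion_le_card_mul _ _ (s + t) fun k _ => ?_).trans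
      (Nat.mul_le_mul_right _ hKcard)
    exact (Finset.card_union_le _ _).trans (Nat.add_le_add (hJf1 _) (hJe' _))
  · intro σ τ h
    have hfk : ∀ k ≤ p, f k σ = f k τ := by
      intro k
      induction k with
      | zero =>
        intro _
        simp [hfdef]
      | succ k ih =>
        intro hk
        by_cases hkK : k ∈ K
        · apply hJf2 (k + 1) hk
          intro i hi
          apply h
          exact Finset.mem_union_left _ (Finset.mem_biUnion.2
            ⟨k, hkK, Finset.mem_union_left _ hi⟩)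
        · have h1 : f k = f (k + 1) := by
            by_contra hne
            exact hkK (Finset.mem_filter.2 ⟨Finset.mem_range.2 (by omega), hne⟩)
          rw [← h1]
          exact ih (by omega)
    -- a firing item which is the first one
    have hfirst : ∀ (ρ : V → Bool) (k : Fin p), (∀ l < k, e l ρ = none) → e k ρ ≠ none →
        f k.1 ρ = false ∧ f (k.1 + 1) ρ = true := by
      intro ρ k h1 h2
      constructor
      · simp only [hfdef, decide_eq_false_iff_not]
        rintro ⟨l, h3, h4⟩
        exact h4 (h1 l h3)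
      · simp only [hfdef, decide_eq_true_eq]
        exact ⟨k, by omega, h2⟩
    have hfirst' : ∀ (ρ : V → Bool) (k : Fin p), f k.1 ρ = false → f (k.1 + 1) ρ = true →
        (∀ l < k, e l ρ = none) ∧ e k ρ ≠ none := by
      intro ρ k h1 h2
      simp only [hfdef, decide_eq_false_iff_not, not_exists, not_and, not_not] at h1
      simp only [hfdef, decide_eq_true_eq] at h2
      refine ⟨fun l hl => h1 l hl, ?_⟩
      obtain ⟨l, h3, h4⟩ := h2
      have : l = k := by
        by_contra hne
        have : l.1 < k.1 := by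
          have : l.1 ≠ k.1 := fun h => hne (Fin.ext h)
          omega
        exact h4 (h1 l this)
      rwa [← this]
    rcases hD σ with ⟨h1, h2⟩ | ⟨k, h1, h2⟩
    · have h3 : f p σ = false := by
        simp only [hfdef, decide_eq_false_iff_not]
        rintro ⟨l, _, h4⟩
        exact h4 (h1 l)
      have h4 : f p τ = false := by rw [← hfk p le_rfl, h3]
      rcases hD τ with ⟨h5, h6⟩ | ⟨k, h5, h6⟩
      · rw [h2, h6]
        exact hJd2 σ τ fun i hi => h i (Finset.mem_union_right _ hi)
      · exfalso
        simp only [hfdef, decide_eq_false_iff_not, not_exists, not_and, not_not] at h4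
        rw [h4 k k.2] at h6
        exact absurd h6 (by simp)
    · have h3 : e k σ ≠ none := by rw [h2]; simp
      obtain ⟨h4, h5⟩ := hfirst σ k h1 h3
      rw [hfk k.1 k.2.le] at h4
      have h5' := h5
      rw [hfk (k.1 + 1) k.2] at h5'
      obtain ⟨h6, h7⟩ := hfirst' τ k h4 h5'
      have hkK : k.1 ∈ K := by
        refine Finset.mem_filter.2 ⟨Finset.mem_range.2 k.2, fun heq => ?_⟩
        rw [heq, h5'] at h4
        exact absurd h4 (by decide)
      have h8 : e k σ = e k τ := by
        apply hJe2 k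
        intro i hi
        apply h
        refine Finset.mem_union_left _ (Finset.mem_biUnion.2
          ⟨k.1, hkK, Finset.mem_union_right _ ?_⟩)
        simp only [Je', k.2, dif_pos]
        exact hi
      rcases hD τ with ⟨h9, h10⟩ | ⟨k', h9, h10⟩
      · exact absurd (h9 k) h7
      · have hk' : k' = k := by
          rcases lt_trichotomy k' k with hlt | heq | hgt
          · rw [h6 k' hlt] at h10
            exact absurd h10 (by simp)
          · exact heq
          · exact absurd (h9 k hgt) h7
        rw [hk', ← h8, h2] at h10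
        exact (Option.some_injective _ h10)

end

end Pool.Agent.H58.OVPR
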