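import Pool.Agent.H58.OVPR.Table
import Pool.Agent.H58.OVAC.Blocks

/-! The expected number of interactions of a run all of whose functions have small influence. -/

set_option autoImplicit false
set_option maxHeartbeats 4000000

namespace Pool.Agent.H58.OVPR

open Pool.Agent.H58.OVAC

/-- The average over the pairs of strings which differ everywhere. -/
noncomputable def avR {k D : ℕ} (Φ : Str k D → Str k D → ℝ) : ℝ :=
  (∑ a, ∑ b, if Off a b then Φ a b else 0) / ((k * (k - 1) : ℝ) ^ D)

section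

variable {k D : ℕ}

theorem avR_mono (hk : 2 ≤ k) {Φ Ψ : Str k D → Str k D → ℝ} (h : ∀ a b, Off a b → Φ a b ≤ Ψ a b) :
    avR Φ ≤ avR Ψ := by
  have hk' : (2 : ℝ) ≤ k := by exact_mod_cast hk
  have h0 : (0 : ℝ) ≤ (k * (k - 1) : ℝ) ^ D := by
    apply pow_nonneg
    nlinarith
  apply div_le_div_of_nonneg_right _ h0
  refine Finset.sum_le_sum fun a _ => Finset.sum_le_sum fun b _ => ?_
  by_cases hab : Off a b
  · rw [if_pos hab, if_pos hab]
    exact h a b hab
  · rw [if_neg hab, if_neg hab]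

theorem avR_add (Φ Ψ : Str k D → Str k D → ℝ) :
    avR (fun a b => Φ a b + Ψ a b) = avR Φ + avR Ψ := by
  unfold avR
  rw [← add_div, ← Finset.sum_add_distrib]
  congr 1
  refine Finset.sum_congr rfl fun a _ => ?_
  rw [← Finset.sum_add_distrib]
  refine Finset.sum_congr rfl fun b _ => ?_
  split_ifs <;> simp

theorem avR_sum {ι : Type} (s : Finset ι) (Φ : ι → Str k D → Str k D → ℝ) :
    avR (fun a b => ∑ i ∈ s, Φ i a b) = ∑ i ∈ s, avR (Φ i) := by
  classical
  induction s using Finset.induction_on with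
  | empty =>
    unfold avR
    simp
  | insert i s hi ih =>
    rw [Finset.sum_insert hi, ← ih, ← avR_add]
    congr 1
    funext a b
    rw [Finset.sum_insert hi]

theorem avR_const (hk : 2 ≤ k) (c : ℝ) : avR (fun _ _ : Str k D => c) = c := by
  have hk' : (2 : ℝ) ≤ k := by exact_mod_cast hk
  have h0 : (0 : ℝ) < (k * (k - 1) : ℝ) ^ D := by
    apply pow_pos
    nlinarith
  unfold avR
  have h1 : (∑ a : Str k D, ∑ b : Str k D, if Off a b then c else 0) =
      c * ∑ a : Str k D, ∑ b : Str k D, if Off a b then (1 : ℝ) else 0 := by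
    rw [Finset.mul_sum]
    refine Finset.sum_congr rfl fun a _ => ?_
    rw [Finset.mul_sum]
    refine Finset.sum_congr rfl fun b _ => ?_
    split_ifs <;> simp
  rw [h1, count_pairs hk, mul_div_assoc, div_self h0.ne', mul_one]

theorem rpow_sum_le {ι : Type} (I : Finset ι) {q : ℝ} (hq1 : 1 ≤ q) (s : ι → ℝ)
    (h0 : ∀ i ∈ I, 0 ≤ s i) {M : ℝ} (hM : ∑ i ∈ I, s i ≤ M) :
    ∑ i ∈ I, s i ^ (1 / q) ≤ (I.card : ℝ) ^ (1 - 1 / q) * (M + 1) := by
  have hM0 : 0 ≤ M := (Finset.sum_nonneg h0).trans hM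
  rcases Nat.eq_zero_or_pos I.card with hn | hn
  · have hI : I = ∅ := Finset.card_eq_zero.1 hn
    subst hI
    simp only [Finset.sum_empty]
    have : (0 : ℝ) ≤ (((∅ : Finset ι).card : ℕ) : ℝ) ^ (1 - 1 / q) :=
      Real.rpow_nonneg (Nat.cast_nonneg _) _
    positivity
  obtain ⟨n, hnn⟩ : ∃ n : ℕ, n = I.card := ⟨_, rfl⟩
  rw [← hnn] at hn ⊢
  have hn' : (1 : ℝ) ≤ n := by exact_mod_cast hn
  have hn0 : (0 : ℝ) < n := by linarith
  have hq0 : 0 < q := by linarith
  have hq : 1 / q ≤ 1 := by rw [div_le_one hq0]; exact hq1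
  have hq' : 0 < 1 / q := by positivity
  have hone : ∀ i ∈ I, s i ^ (1 / q) ≤ (n : ℝ) ^ (1 - 1 / q) * (s i + 1 / n) := by
    intro i hi
    have hP : 0 < (n : ℝ) ^ (1 - 1 / q) := Real.rpow_pos_of_pos hn0 _
    rcases le_total (1 / (n : ℝ)) (s i) with h | h
    · have hs : 0 < s i := lt_of_lt_of_le (by positivity) h
      have h1 : s i ^ (1 / q) = s i * s i ^ (1 / q - 1) := by
        rw [← Real.rpow_one_add' (h0 i hi) (by linarith)]
        congr 1
        ring
      have h2 : s i ^ (1 / q - 1) ≤ (n : ℝ) ^ (1 - 1 / q) := by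
        have h3 : s i ^ (1 / q - 1) ≤ (1 / (n : ℝ)) ^ (1 / q - 1) :=
          Real.rpow_le_rpow_of_nonpos (by positivity) h (by linarith)
        refine h3.trans (le_of_eq ?_)
        rw [one_div, Real.inv_rpow hn0.le, ← Real.rpow_neg hn0.le]
        congr 1
        ring
      rw [h1]
      calc s i * s i ^ (1 / q - 1) ≤ s i * (n : ℝ) ^ (1 - 1 / q) :=
            mul_le_mul_of_nonneg_left h2 hs.le
        _ ≤ (n : ℝ) ^ (1 - 1 / q) * (s i + 1 / n) := by
            rw [mul_comm]
            apply mul_le_mul_of_nonneg_left _ hP.le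
            have : 0 < 1 / (n : ℝ) := by positivity
            linarith
    · calc s i ^ (1 / q) ≤ (1 / (n : ℝ)) ^ (1 / q) := Real.rpow_le_rpow (h0 i hi) h hq'.le
        _ = (n : ℝ) ^ (1 - 1 / q) * (1 / n) := by
            rw [one_div (n : ℝ), Real.inv_rpow hn0.le, ← Real.rpow_neg hn0.le,
              ← Real.rpow_neg_one (n : ℝ), ← Real.rpow_add hn0]
            congr 1
            ring
        _ ≤ _ := by
            apply mul_le_mul_of_nonneg_left _ hP.le
            linarith [h0 i hi]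
  refine (Finset.sum_le_sum hone).trans ?_
  rw [← Finset.mul_sum, Finset.sum_add_distrib, Finset.sum_const, ← hnn, nsmul_eq_mul,
    mul_one_div_cancel hn0.ne']
  apply mul_le_mul_of_nonneg_left _ (Real.rpow_nonneg hn0.le _)
  linarith

end

section

variable {V X Y : Type} [DecidableEq V] [Fintype V] [Fintype X]

/-- The sum of the powers of the influences. -/
noncomputable def phi (q : ℝ) (u : (V → X) → Y) (y : V → X) : ℝ :=
  ∑ p, (pr fun α : X => u (Function.update y p α) ≠ u y) ^ (1 / q)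

theorem phi_nonneg (q : ℝ) (u : (V → X) → Y) (y : V → X) : 0 ≤ phi q u y :=
  Finset.sum_nonneg fun _ _ => Real.rpow_nonneg (pr_nonneg _) _

theorem phi_le {q : ℝ} (hq1 : 1 ≤ q) (u : (V → X) → Y) (y : V → X) {M : ℝ}
    (hM : infl u y ≤ M) :
    phi q u y ≤ (Fintype.card V : ℝ) ^ (1 - 1 / q) * (M + 1) := by
  have := rpow_sum_le Finset.univ hq1
    (fun p => pr fun α : X => u (Function.update y p α) ≠ u y) (fun _ _ => pr_nonneg _) hM
  rwa [Finset.card_univ] at this

/-- The sum over a family of functions. -/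
theorem sum_phi_le {ι : Type} (I : Finset ι) {q : ℝ} (hq1 : 1 ≤ q) {Yf : ι → Type}
    (u : ∀ i, (V → X) → Yf i) (y : V → X) {M : ℝ} (hM : ∑ i ∈ I, infl (u i) y ≤ M) :
    ∑ i ∈ I, phi q (u i) y ≤ ((I.card * Fintype.card V : ℕ) : ℝ) ^ (1 - 1 / q) * (M + 1) := by
  have h1 : ∑ i ∈ I, phi q (u i) y = ∑ z ∈ I ×ˢ (Finset.univ : Finset V),
      (pr fun α : X => u z.1 (Function.update y z.2 α) ≠ u z.1 y) ^ (1 / q) := by
    rw [Finset.sum_product]
    rfl
  have h2 : ∑ z ∈ I ×ˢ (Finset.univ : Finset V),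
      (pr fun α : X => u z.1 (Function.update y z.2 α) ≠ u z.1 y) ≤ M := by
    rw [Finset.sum_product]
    exact hM
  rw [h1]
  have h3 := rpow_sum_le (I ×ˢ (Finset.univ : Finset V)) hq1
    (fun z => pr fun α : X => u z.1 (Function.update y z.2 α) ≠ u z.1 y)
    (fun _ _ => pr_nonneg _) h2
  rwa [Finset.card_product, Finset.card_univ] at h3

theorem infl_comp {Z : Type} (u : (V → X) → Y) (g : Y → Z) (y : V → X) :
    infl (fun x => g (u x)) y ≤ infl u y := by
  refine Finset.sum_le_sum fun p _ => pr_mono fun α h => ?_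
  intro h'
  exact h (by simp only [h'])

theorem infl_le_sum {ι : Type} [Fintype ι] {Z : Type} (u : (V → X) → Y)
    (e : ι → (V → X) → Z) (h : ∀ x x', u x ≠ u x' → ∃ i, e i x ≠ e i x') (y : V → X) :
    infl u y ≤ ∑ i, infl (e i) y := by
  unfold infl
  rw [Finset.sum_comm]
  refine Finset.sum_le_sum fun p _ => ?_
  refine le_trans (pr_mono fun α hα => ?_) (pr_exists_le Finset.univ
    fun i α => e i (Function.update y p α) ≠ e i y)
  obtain ⟨i, hi⟩ := h _ _ hα
  exact ⟨i, Finset.mem_univ _, hi⟩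

theorem sum_infl_le {Cell Z : Type} [Fintype Cell] (u : (V → X) → Y) (G : Cell → Y → Option Z)
    (hG : ∀ s c c', G c s ≠ none → G c' s ≠ none → c = c') (y : V → X) :
    ∑ c, infl (fun x => G c (u x)) y ≤ 2 * infl u y := by
  classical
  unfold infl
  rw [Finset.sum_comm, Finset.mul_sum]
  refine Finset.sum_le_sum fun p _ => ?_
  unfold pr
  rw [← av_sum, ← av_mul_left]
  refine av_mono fun α => ?_
  by_cases h : u (Function.update y p α) ≠ u y
  · rw [if_pos h, mul_one]
    have h1 : ∀ s, (Finset.univ.filter fun c => G c s ≠ none).card ≤ 1 := by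
      intro s
      rw [Finset.card_le_one]
      intro c hc c' hc'
      exact hG s c c' (Finset.mem_filter.1 hc).2 (Finset.mem_filter.1 hc').2
    calc _ ≤ ∑ c, ((if G c (u (Function.update y p α)) ≠ none then (1 : ℝ) else 0) +
        (if G c (u y) ≠ none then (1 : ℝ) else 0)) := by
          refine Finset.sum_le_sum fun c _ => ?_
          by_cases h3 : G c (u (Function.update y p α)) = none
          · by_cases h4 : G c (u y) = none
            · rw [if_neg (by simp [h3, h4])]
              split_ifs <;> norm_num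
            · rw [if_pos (show G c (u y) ≠ none from h4)]
              split_ifs <;> norm_num
          · rw [if_pos (show G c (u (Function.update y p α)) ≠ none from h3)]
            split_ifs <;> norm_num
      _ = ((Finset.univ.filter fun c => G c (u (Function.update y p α)) ≠ none).card : ℝ) +
          ((Finset.univ.filter fun c => G c (u y) ≠ none).card : ℝ) := by
          rw [Finset.sum_add_distrib, Finset.card_filter, Finset.card_filter]
          push_cast
          rfl
      _ ≤ 1 + 1 := by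
          have e1 := h1 (u (Function.update y p α))
          have e2 := h1 (u y)
          exact add_le_add (by exact_mod_cast e1) (by exact_mod_cast e2)
      _ = 2 := by norm_num
  · rw [if_neg h, mul_zero]
    rw [not_not] at h
    refine Finset.sum_nonpos fun c _ => ?_
    rw [if_neg (by simp [h])]

end

section

variable {k D n : ℕ} {Y Z : Type}

/-- The expected number of pairs `(i, j)` such that `u` reacts to `i` and `v` reacts to `j`. -/
theorem pair_bound {q : ℝ} (hk : 2 ≤ k) (hq1 : 1 ≤ q) (hq2 : q ≤ 2) (hgood : Good k q)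
    (u : (Bool × Fin n → Str k D) → Y) (v : (Bool × Fin n → Str k D) → Z)
    (y : Bool × Fin n → Str k D) :
    avR (fun a b => (NA u y a : ℝ) * (NB v y b : ℝ)) ≤ phi q u y * phi q v y := by
  classical
  have hk' : (2 : ℝ) ≤ k := by exact_mod_cast hk
  have hR : (0 : ℝ) < (k * (k - 1) : ℝ) ^ D := by
    apply pow_pos
    nlinarith
  have hcard : ((Fintype.card (Str k D) : ℕ) : ℝ) = (k : ℝ) ^ D := by
    simp [Fintype.card_fin]
  let s : Fin n → ℝ := fun i => pr fun α : Str k D => u (Function.update y (false, i) α) ≠ u y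
  let t : Fin n → ℝ := fun j => pr fun α : Str k D => v (Function.update y (true, j) α) ≠ v y
  have hs0 : ∀ i, 0 ≤ s i := fun i => pr_nonneg _
  have ht0 : ∀ i, 0 ≤ t i := fun i => pr_nonneg _
  have hsM : ∑ i, s i ^ (1 / q) ≤ phi q u y := by
    unfold phi
    rw [Fintype.sum_prod_type, Fintype.sum_bool]
    have : 0 ≤ ∑ x : Fin n, (pr fun α : Str k D => u (Function.update y (true, x) α) ≠ u y) ^
        (1 / q) := Finset.sum_nonneg fun i _ => Real.rpow_nonneg (pr_nonneg _) _
    linarith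
  have htM : ∑ i, t i ^ (1 / q) ≤ phi q v y := by
    unfold phi
    rw [Fintype.sum_prod_type, Fintype.sum_bool]
    have : 0 ≤ ∑ x : Fin n, (pr fun α : Str k D => v (Function.update y (false, x) α) ≠ v y) ^
        (1 / q) := Finset.sum_nonneg fun i _ => Real.rpow_nonneg (pr_nonneg _) _
    linarith
  have h1 : ∀ a b, (NA u y a : ℝ) * (NB v y b : ℝ) = ∑ i, ∑ j,
      (if sA u y a i then (1 : ℝ) else 0) * (if sB v y b j then (1 : ℝ) else 0) := by
    intro a b
    unfold NA NB
    rw [Finset.card_filter, Finset.card_filter]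
    push_cast
    rw [Finset.sum_mul_sum]
  have h2 : avR (fun a b => (NA u y a : ℝ) * (NB v y b : ℝ)) = ∑ i, ∑ j,
      avR (fun a b => (if sA u y a i then (1 : ℝ) else 0) *
        (if sB v y b j then (1 : ℝ) else 0)) := by
    simp only [h1]
    rw [avR_sum]
    refine Finset.sum_congr rfl fun i _ => ?_
    rw [avR_sum]
  have h3 : ∀ i j, avR (fun a b => (if sA u y a i then (1 : ℝ) else 0) *
        (if sB v y b j then (1 : ℝ) else 0)) ≤ s i ^ (1 / q) * t j ^ (1 / q) := by
    intro i j
    have h4 := tensor_set hk hq1 hq2 hgood (D := D)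
      (fun a => if sA u y a i then (1 : ℝ) else 0) (fun b => if sB v y b j then (1 : ℝ) else 0)
      (fun a => by by_cases h : sA u y a i <;> simp [h])
      (fun b => by by_cases h : sB v y b j <;> simp [h])
    have h5 : (∑ a : Str k D, if sA u y a i then (1 : ℝ) else 0) / (k : ℝ) ^ D = s i := by
      simp only [s]
      unfold pr av
      rw [hcard]
      congr 1
    have h6 : (∑ b : Str k D, if sB v y b j then (1 : ℝ) else 0) / (k : ℝ) ^ D = t j := by
      simp only [t]
      unfold pr av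
      rw [hcard]
      congr 1
    rw [h5, h6] at h4
    unfold avR
    rw [div_le_iff₀ hR, mul_comm]
    exact h4
  rw [h2]
  refine (Finset.sum_le_sum fun i _ => Finset.sum_le_sum fun j _ => h3 i j).trans ?_
  rw [← Finset.sum_mul_sum]
  exact mul_le_mul hsM htM (Finset.sum_nonneg fun i _ => Real.rpow_nonneg (ht0 i) _)
    (phi_nonneg _ _ _)

end

section

variable {p k D n : ℕ} {Cell St Wd : Type} [DecidableEq Cell] [Fintype Cell]

theorem dl_diff {Ω Y : Type} {m : ℕ} (e : Fin m → Ω → Option Y) (D : Ω → Y)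
    (hD : ∀ x, ∃ k, (∀ l < k, e l x = none) ∧ e k x = some (D x)) (u v : Ω) (huv : D u ≠ D v) :
    ∃ k, e k u ≠ e k v := by
  by_contra hcon
  push Not at hcon
  obtain ⟨k, h1, h2⟩ := hD u
  obtain ⟨k', h3, h4⟩ := hD v
  rcases lt_trichotomy k k' with h | h | h
  · have := h3 k h
    rw [← hcon k, h2] at this
    exact absurd this (by simp)
  · subst h
    rw [hcon k, h4] at h2
    exact huv (Option.some_injective _ h2).symm
  · have := h1 k' h
    rw [hcon k', h4] at this
    exact absurd this (by simp)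

theorem item_unique {Cell Wd : Type} [DecidableEq Cell] (w : Option (Cell × Wd)) (c c' : Cell)
    (h : item w c ≠ none) (h' : item w c' ≠ none) : c = c' := by
  cases w with
  | none => simp [item] at h
  | some z =>
    simp only [item, Option.bind_some, ne_eq, ite_eq_right_iff, reduceCtorEq, imp_false,
      not_not] at h h'
    rw [← h, ← h']

open Classical in
/-- The expected number of interactions in the final content of a cell. -/
theorem count {q : ℝ} (hk : 2 ≤ k) (hq1 : 1 ≤ q) (hq2 : q ≤ 2) (hgood : Good k q)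
    (R : Run p Cell St Wd (Bool × Fin n → Str k D)) (hs0 : ∀ P, DepOne (R.st 0 P))
    (hc0 : ∀ c, DepOne (R.ct 0 c)) (T : ℕ) (out : Cell) (y : Bool × Fin n → Str k D) {M B0 : ℝ}
    (hM0 : 0 ≤ M) (hst : ∀ τ ≤ T, ∀ P, infl (R.st τ P) y ≤ M)
    (hct : ∀ τ ≤ T, ∀ c, infl (R.ct τ c) y ≤ M) (hB0 : ∑ c, infl (R.ct 0 c) y ≤ B0) :
    avR (fun a b => ((Finset.univ.filter fun z : Fin n × Fin n =>
      ¬ Add (R.ct T out) y a b z.1 z.2).card : ℝ)) ≤
      T * (4 * (((2 * n : ℕ) : ℝ) ^ (1 - 1 / q) * (M + 1)) *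
        (((Fintype.card Cell * (p + 1) * (2 * n) : ℕ) : ℝ) ^ (1 - 1 / q) *
          (2 * p * M * (T + 2) + B0 + 2))) := by
  have hq0 : 0 < q := by linarith
  have hq' : 0 ≤ 1 - 1 / q := by
    rw [sub_nonneg, div_le_one hq0]
    exact hq1
  have hcardV : Fintype.card (Bool × Fin n) = 2 * n := by simp
  set Φ : ℝ := ((2 * n : ℕ) : ℝ) ^ (1 - 1 / q) * (M + 1) with hΦ
  have hΦ0 : 0 ≤ Φ := mul_nonneg (Real.rpow_nonneg (Nat.cast_nonneg _) _) (by linarith)
  set Λ : ℝ := ((Fintype.card Cell * (p + 1) * (2 * n) : ℕ) : ℝ) ^ (1 - 1 / q) with hΛ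
  have hΛ0 : 0 ≤ Λ := Real.rpow_nonneg (Nat.cast_nonneg _) _
  have hphi : ∀ {Y : Type} (u : (Bool × Fin n → Str k D) → Y), infl u y ≤ M →
      phi q u y ≤ Φ := by
    intro Y u hu
    have := phi_le hq1 u y hu
    rwa [hcardV] at this
  -- the total influence of the contents
  have hitem : ∀ τ, τ + 1 ≤ T → ∑ c : Cell, ∑ l : Fin p,
      infl (fun x => item (R.write τ l (R.st (τ + 1) l x)) c) y ≤ 2 * p * M := by
    intro τ hτ
    rw [Finset.sum_comm]
    calc _ ≤ ∑ _l : Fin p, 2 * M := by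
          apply Finset.sum_le_sum
          intro l _
          refine (sum_infl_le (R.st (τ + 1) l) (fun c s => item (R.write τ l s) c)
            (fun s c c' h h' => item_unique _ c c' h h') y).trans ?_
          have := hst (τ + 1) hτ l
          linarith
      _ = 2 * p * M := by
          rw [Finset.sum_const, Finset.card_univ, Fintype.card_fin, nsmul_eq_mul]
          ring
  have hsumW : ∀ τ, τ + 1 ≤ T → ∀ c, ∑ l : Fin (p + 1), infl (R.eW τ c l) y ≤
      (∑ l : Fin p, infl (fun x => item (R.write τ l (R.st (τ + 1) l x)) c) y) +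
        infl (R.ct τ c) y := by
    intro τ _ c
    rw [Fin.sum_univ_castSucc]
    refine add_le_add (Finset.sum_le_sum fun l _ => ?_) ?_
    · simp only [Run.eW, Fin.snoc_castSucc]
      exact le_rfl
    · simp only [Run.eW, Fin.snoc_last]
      exact infl_comp (R.ct τ c) some y
  have hcont : ∀ τ ≤ T, ∑ c, infl (R.ct τ c) y ≤ B0 + 2 * p * M * τ := by
    intro τ
    induction τ with
    | zero =>
      intro _
      simpa using hB0
    | succ τ ih =>
      intro hτ
      have h1 : ∀ c, infl (R.ct (τ + 1) c) y ≤ ∑ l : Fin (p + 1), infl (R.eW τ c l) y :=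
        fun c => infl_le_sum _ _ (fun x x' h => dl_diff (R.eW τ c) _ (R.eW_spec τ c) x x' h) y
      calc ∑ c, infl (R.ct (τ + 1) c) y
          ≤ ∑ c, ((∑ l : Fin p, infl (fun x => item (R.write τ l (R.st (τ + 1) l x)) c) y) +
            infl (R.ct τ c) y) :=
            Finset.sum_le_sum fun c _ => (h1 c).trans (hsumW τ hτ c)
        _ ≤ 2 * p * M + (B0 + 2 * p * M * τ) := by
            rw [Finset.sum_add_distrib]
            exact add_le_add (hitem τ hτ) (ih (by omega))
        _ = B0 + 2 * p * M * ((τ + 1 : ℕ) : ℝ) := by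
            push_cast
            ring
  -- sums of `phi`
  have hA : ∀ τ < T, ∑ z ∈ (Finset.univ : Finset (Fin p × Cell)), phi q (R.eR τ z.1 z.2) y ≤
      Λ * (2 * p * M + 1) := by
    intro τ hτ
    have h1 : ∑ z ∈ (Finset.univ : Finset (Fin p × Cell)), infl (R.eR τ z.1 z.2) y ≤
        2 * p * M := by
      rw [Fintype.sum_prod_type]
      calc _ ≤ ∑ _l : Fin p, 2 * M := by
            apply Finset.sum_le_sum
            intro P _
            refine (sum_infl_le (R.st τ P) (fun c s => if R.read τ P s = c then some s else none)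
              (fun s c c' h h' => ?_) y).trans ?_
            · simp only [ne_eq, ite_eq_right_iff, reduceCtorEq, imp_false, not_not] at h h'
              rw [← h, ← h']
            · have := hst τ hτ.le P
              linarith
        _ = 2 * p * M := by
            rw [Finset.sum_const, Finset.card_univ, Fintype.card_fin, nsmul_eq_mul]
            ring
    refine (sum_phi_le Finset.univ hq1 (fun z : Fin p × Cell => R.eR τ z.1 z.2) y h1).trans ?_
    apply mul_le_mul_of_nonneg_right _ (by positivity)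
    apply Real.rpow_le_rpow (Nat.cast_nonneg _) _ hq'
    have h2 : (Finset.univ : Finset (Fin p × Cell)).card * Fintype.card (Bool × Fin n) ≤
        Fintype.card Cell * (p + 1) * (2 * n) := by
      rw [hcardV, Finset.card_univ, Fintype.card_prod, Fintype.card_fin]
      apply Nat.mul_le_mul_right
      rw [mul_comm]
      exact Nat.mul_le_mul_left _ (Nat.le_succ p)
    exact_mod_cast h2
  have hB : ∀ τ < T, ∑ z ∈ (Finset.univ : Finset (Cell × Fin (p + 1))),
      phi q (R.eW τ z.1 z.2) y ≤ Λ * (2 * p * M * (T + 1) + B0 + 1) := by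
    intro τ hτ
    have h1 : ∑ z ∈ (Finset.univ : Finset (Cell × Fin (p + 1))), infl (R.eW τ z.1 z.2) y ≤
        2 * p * M * (T + 1) + B0 := by
      rw [Fintype.sum_prod_type]
      calc _ ≤ ∑ c, ((∑ l : Fin p, infl (fun x => item (R.write τ l (R.st (τ + 1) l x)) c) y) +
            infl (R.ct τ c) y) := Finset.sum_le_sum fun c _ => hsumW τ hτ c
        _ ≤ 2 * p * M + (B0 + 2 * p * M * τ) := by
            rw [Finset.sum_add_distrib]
            exact add_le_add (hitem τ hτ) (hcont τ hτ.le)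
        _ ≤ 2 * p * M * (T + 1) + B0 := by
            have h2 : (τ : ℝ) ≤ T := by exact_mod_cast hτ.le
            have h3 : 2 * (p : ℝ) * M * τ ≤ 2 * p * M * T :=
              mul_le_mul_of_nonneg_left h2 (by positivity)
            linarith
    refine (sum_phi_le Finset.univ hq1 (fun z : Cell × Fin (p + 1) => R.eW τ z.1 z.2) y
      h1).trans ?_
    have h4 : (Finset.univ : Finset (Cell × Fin (p + 1))).card * Fintype.card (Bool × Fin n) =
        Fintype.card Cell * (p + 1) * (2 * n) := by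
      rw [hcardV, Finset.card_univ, Fintype.card_prod, Fintype.card_fin]
    rw [h4]
  have hinflW : ∀ τ < T, ∀ c l, infl (R.eW τ c l) y ≤ M := by
    intro τ hτ c l
    refine Fin.lastCases ?_ (fun l => ?_) l
    · simp only [Run.eW, Fin.snoc_last]
      exact (infl_comp (R.ct τ c) some y).trans (hct τ hτ.le c)
    · simp only [Run.eW, Fin.snoc_castSucc]
      exact (infl_comp (R.st (τ + 1) l) (fun s => item (R.write τ l s) c) y).trans
        (hst (τ + 1) hτ l)
  -- the expectation
  have h1 : avR (fun a b => ((Finset.univ.filter fun z : Fin n × Fin n =>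
      ¬ Add (R.ct T out) y a b z.1 z.2).card : ℝ)) ≤
      avR (fun a b : Str k D => ∑ τ ∈ Finset.range T,
      ((∑ P, ∑ c, ((NA (R.eR τ P c) y a : ℝ) * (NB (R.ct τ c) y b : ℝ) +
        (NA (R.ct τ c) y a : ℝ) * (NB (R.eR τ P c) y b : ℝ))) +
      ∑ c, ∑ l, ((NA (R.eW τ c l) y a : ℝ) * (NB (R.ct (τ + 1) c) y b : ℝ) +
        (NA (R.ct (τ + 1) c) y a : ℝ) * (NB (R.eW τ c l) y b : ℝ) +
        (NA (R.eW τ c (R.k0 τ c y)) y a : ℝ) * (NB (R.eW τ c l) y b : ℝ) +
        (NA (R.eW τ c l) y a : ℝ) * (NB (R.eW τ c (R.k0 τ c y)) y b : ℝ)))) := by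
    apply avR_mono hk
    intro a b _
    exact_mod_cast int_card R hs0 hc0 T out y a b
  refine h1.trans ?_
  rw [avR_sum]
  have hτ : ∀ τ ∈ Finset.range T, avR (fun a b : Str k D =>
      ((∑ P, ∑ c, ((NA (R.eR τ P c) y a : ℝ) * (NB (R.ct τ c) y b : ℝ) +
        (NA (R.ct τ c) y a : ℝ) * (NB (R.eR τ P c) y b : ℝ))) +
      ∑ c, ∑ l, ((NA (R.eW τ c l) y a : ℝ) * (NB (R.ct (τ + 1) c) y b : ℝ) +
        (NA (R.ct (τ + 1) c) y a : ℝ) * (NB (R.eW τ c l) y b : ℝ) +
        (NA (R.eW τ c (R.k0 τ c y)) y a : ℝ) * (NB (R.eW τ c l) y b : ℝ) +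
        (NA (R.eW τ c l) y a : ℝ) * (NB (R.eW τ c (R.k0 τ c y)) y b : ℝ)))) ≤
      4 * Φ * (Λ * (2 * p * M * (T + 2) + B0 + 2)) := by
    intro τ hτ
    have hτT := Finset.mem_range.1 hτ
    rw [avR_add]
    have e1 : avR (fun a b : Str k D => ∑ P, ∑ c,
        ((NA (R.eR τ P c) y a : ℝ) * (NB (R.ct τ c) y b : ℝ) +
        (NA (R.ct τ c) y a : ℝ) * (NB (R.eR τ P c) y b : ℝ))) ≤
        2 * Φ * (Λ * (2 * p * M + 1)) := by
      rw [avR_sum]
      have e2 : ∀ P : Fin p, avR (fun a b : Str k D => ∑ c,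
          ((NA (R.eR τ P c) y a : ℝ) * (NB (R.ct τ c) y b : ℝ) +
          (NA (R.ct τ c) y a : ℝ) * (NB (R.eR τ P c) y b : ℝ))) ≤
          ∑ c, 2 * Φ * phi q (R.eR τ P c) y := by
        intro P
        rw [avR_sum]
        apply Finset.sum_le_sum
        intro c _
        rw [avR_add]
        have e3 := pair_bound hk hq1 hq2 hgood (R.eR τ P c) (R.ct τ c) y
        have e4 := pair_bound hk hq1 hq2 hgood (R.ct τ c) (R.eR τ P c) y
        have e5 := hphi (R.ct τ c) (hct τ hτT.le c)
        have e6 := phi_nonneg q (R.eR τ P c) y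
        nlinarith
      refine (Finset.sum_le_sum fun P _ => e2 P).trans ?_
      have e7 := hA τ hτT
      rw [Fintype.sum_prod_type] at e7
      simp only [← Finset.mul_sum]
      exact mul_le_mul_of_nonneg_left e7 (by positivity)
    have e8 : avR (fun a b : Str k D => ∑ c, ∑ l,
        ((NA (R.eW τ c l) y a : ℝ) * (NB (R.ct (τ + 1) c) y b : ℝ) +
        (NA (R.ct (τ + 1) c) y a : ℝ) * (NB (R.eW τ c l) y b : ℝ) +
        (NA (R.eW τ c (R.k0 τ c y)) y a : ℝ) * (NB (R.eW τ c l) y b : ℝ) +
        (NA (R.eW τ c l) y a : ℝ) * (NB (R.eW τ c (R.k0 τ c y)) y b : ℝ))) ≤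
        4 * Φ * (Λ * (2 * p * M * (T + 1) + B0 + 1)) := by
      rw [avR_sum]
      have e2 : ∀ c : Cell, avR (fun a b : Str k D => ∑ l,
          ((NA (R.eW τ c l) y a : ℝ) * (NB (R.ct (τ + 1) c) y b : ℝ) +
          (NA (R.ct (τ + 1) c) y a : ℝ) * (NB (R.eW τ c l) y b : ℝ) +
          (NA (R.eW τ c (R.k0 τ c y)) y a : ℝ) * (NB (R.eW τ c l) y b : ℝ) +
          (NA (R.eW τ c l) y a : ℝ) * (NB (R.eW τ c (R.k0 τ c y)) y b : ℝ))) ≤
          ∑ l, 4 * Φ * phi q (R.eW τ c l) y := by
        intro c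
        rw [avR_sum]
        apply Finset.sum_le_sum
        intro l _
        rw [avR_add, avR_add, avR_add]
        have e3 := pair_bound hk hq1 hq2 hgood (R.eW τ c l) (R.ct (τ + 1) c) y
        have e4 := pair_bound hk hq1 hq2 hgood (R.ct (τ + 1) c) (R.eW τ c l) y
        have e5 := hphi (R.ct (τ + 1) c) (hct (τ + 1) hτT c)
        have e6 := phi_nonneg q (R.eW τ c l) y
        have e9 := pair_bound hk hq1 hq2 hgood (R.eW τ c (R.k0 τ c y)) (R.eW τ c l) y
        have e10 := pair_bound hk hq1 hq2 hgood (R.eW τ c l) (R.eW τ c (R.k0 τ c y)) y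
        have e11 := hphi (R.eW τ c (R.k0 τ c y)) (hinflW τ hτT c _)
        nlinarith
      refine (Finset.sum_le_sum fun c _ => e2 c).trans ?_
      have e7 := hB τ hτT
      rw [Fintype.sum_prod_type] at e7
      simp only [← Finset.mul_sum]
      exact mul_le_mul_of_nonneg_left e7 (by positivity)
    have hpM : 0 ≤ 2 * (p : ℝ) * M + 1 := by positivity
    calc _ ≤ 2 * Φ * (Λ * (2 * p * M + 1)) + 4 * Φ * (Λ * (2 * p * M * (T + 1) + B0 + 1)) :=
          add_le_add e1 e8
      _ ≤ 4 * Φ * (Λ * (2 * p * M + 1)) + 4 * Φ * (Λ * (2 * p * M * (T + 1) + B0 + 1)) := by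
          have : 2 * Φ * (Λ * (2 * p * M + 1)) ≤ 4 * Φ * (Λ * (2 * p * M + 1)) := by
            apply mul_le_mul_of_nonneg_right _ (mul_nonneg hΛ0 hpM)
            linarith
          linarith
      _ = _ := by ring
  refine (Finset.sum_le_sum hτ).trans ?_
  rw [Finset.sum_const, Finset.card_range, nsmul_eq_mul]

end

end Pool.Agent.H58.OVPR
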