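import Pool.Agent.H58.OVPR.Yao

/-! Parallel machines, and hashing of the memory. -/

set_option autoImplicit false
set_option maxHeartbeats 4000000

namespace Pool.Agent.H58.OVPR

open Pool.Agent.H58.OVAC

/-- A parallel machine with `p` processors, memory cells named by `Cell`, local states `St` and
words `Wd`. -/
structure Mach (p : ℕ) (Cell St Wd : Type) where
  read : ℕ → Fin p → St → Cell
  next : ℕ → Fin p → St → Wd → St
  write : ℕ → Fin p → St → Option (Cell × Wd)

section

variable {p : ℕ} {Cell Cell' St Wd : Type} [DecidableEq Cell] [DecidableEq Cell']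

/-- The new content of a cell: the processor with the least number wins. -/
def content (w : Fin p → Option (Cell × Wd)) (c : Cell) (old : Wd) : Wd :=
  ((List.finRange p).findSome? fun P => item (w P) c).getD old

/-- One step. -/
def Mach.step (A : Mach p Cell St Wd) (τ : ℕ) (z : (Fin p → St) × (Cell → Wd)) :
    (Fin p → St) × (Cell → Wd) :=
  (fun P => A.next τ P (z.1 P) (z.2 (A.read τ P (z.1 P))),
    fun c => content (fun P => A.write τ P (A.next τ P (z.1 P) (z.2 (A.read τ P (z.1 P))))) c
      (z.2 c))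

/-- The configuration at time `τ`. -/
def Mach.run (A : Mach p Cell St Wd) (z : (Fin p → St) × (Cell → Wd)) :
    ℕ → (Fin p → St) × (Cell → Wd)
  | 0 => z
  | τ + 1 => A.step τ (A.run z τ)

theorem findSome_finRange {α : Type} (f : Fin p → Option α) :
    ((∀ k, f k = none) ∧ (List.finRange p).findSome? f = none) ∨
      ∃ k, (∀ l < k, f l = none) ∧ f k ≠ none ∧ (List.finRange p).findSome? f = f k := by
  cases h : (List.finRange p).findSome? f with
  | none =>
    rw [List.findSome?_eq_none_iff] at h
    exact Or.inl ⟨fun k => h k (List.mem_finRange k), rfl⟩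
  | some b =>
    obtain ⟨l₁, a, l₂, h1, h2, h3⟩ := List.findSome?_eq_some_iff.1 h
    refine Or.inr ⟨a, fun l hl => ?_, by rw [h2]; simp, h2.symm⟩
    have hmem : l ∈ List.finRange p := List.mem_finRange l
    rw [h1, List.mem_append, List.mem_cons] at hmem
    rcases hmem with hmem | hmem | hmem
    · exact h3 l hmem
    · exact absurd hmem hl.ne
    · have hp := List.pairwise_lt_finRange p
      rw [h1] at hp
      have hp2 := (List.pairwise_cons.1 (List.pairwise_append.1 hp).2.1).1 l hmem
      exact absurd hp2 (not_lt.2 hl.le)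

theorem content_spec (w : Fin p → Option (Cell × Wd)) (c : Cell) (old : Wd) :
    ((∀ k, item (w k) c = none) ∧ content w c old = old) ∨
    ∃ k, (∀ l < k, item (w l) c = none) ∧ item (w k) c = some (content w c old) := by
  rcases findSome_finRange fun P => item (w P) c with ⟨h1, h2⟩ | ⟨k, h1, h2, h3⟩
  · refine Or.inl ⟨h1, ?_⟩
    unfold content
    rw [h2]
    rfl
  · refine Or.inr ⟨k, h1, ?_⟩
    unfold content
    rw [h3]
    obtain ⟨v, hv⟩ := Option.ne_none_iff_exists'.1 h2
    rw [hv]
    rfl

/-- The run as a family of functions of the input. -/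
def Mach.toRun {Ω : Type} (A : Mach p Cell St Wd) (z : Ω → (Fin p → St) × (Cell → Wd)) :
    Run p Cell St Wd Ω where
  st τ P x := (A.run (z x) τ).1 P
  ct τ c x := (A.run (z x) τ).2 c
  read := A.read
  next := A.next
  write := A.write
  hst _ _ _ := rfl
  hct _ _ _ := content_spec _ _ _

/-- Renaming of the cells. -/
def Mach.map (A : Mach p Cell St Wd) (π : Cell → Cell') : Mach p Cell' St Wd where
  read τ P s := π (A.read τ P s)
  next := A.next
  write τ P s := (A.write τ P s).map (Prod.map π id)

/-- The renaming does not matter if it is injective on a set which contains all cells which are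
touched. -/
theorem Mach.map_run (A : Mach p Cell St Wd) (π : Cell → Cell') (T : ℕ)
    (s : Fin p → St) (m : Cell → Wd) (m' : Cell' → Wd) (S : Set Cell) (hS : Set.InjOn π S)
    (hm : ∀ c ∈ S, m' (π c) = m c)
    (hread : ∀ τ < T, ∀ P, A.read τ P ((A.run (s, m) τ).1 P) ∈ S)
    (hwrite : ∀ τ < T, ∀ P, ∀ w, A.write τ P ((A.run (s, m) (τ + 1)).1 P) = some w → w.1 ∈ S) :
    ∀ τ ≤ T, (∀ P, ((A.map π).run (s, m') τ).1 P = (A.run (s, m) τ).1 P) ∧
      ∀ c ∈ S, ((A.map π).run (s, m') τ).2 (π c) = (A.run (s, m) τ).2 c := by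
  intro τ
  induction τ with
  | zero =>
    intro _
    exact ⟨fun P => rfl, hm⟩
  | succ τ ih =>
    intro hτ
    obtain ⟨h1, h2⟩ := ih (by omega)
    have h3 : ∀ P, ((A.map π).run (s, m') (τ + 1)).1 P = (A.run (s, m) (τ + 1)).1 P := by
      intro P
      show A.next τ P (((A.map π).run (s, m') τ).1 P) (((A.map π).run (s, m') τ).2
        (π (A.read τ P (((A.map π).run (s, m') τ).1 P)))) =
        A.next τ P ((A.run (s, m) τ).1 P) ((A.run (s, m) τ).2
        (A.read τ P ((A.run (s, m) τ).1 P)))
      rw [h1 P, h2 _ (hread τ (by omega) P)]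
    refine ⟨h3, fun c hc => ?_⟩
    show content (fun P => ((A.write τ P (((A.map π).run (s, m') (τ + 1)).1 P)).map
        (Prod.map π id))) (π c) (((A.map π).run (s, m') τ).2 (π c)) =
      content (fun P => A.write τ P ((A.run (s, m) (τ + 1)).1 P)) c ((A.run (s, m) τ).2 c)
    rw [h2 c hc]
    unfold content
    congr 2
    funext P
    beta_reduce
    rw [h3 P]
    cases hw : A.write τ P ((A.run (s, m) (τ + 1)).1 P) with
    | none => rfl
    | some w =>
      have hwS := hwrite τ (by omega) P w hw
      simp only [item, Option.map_some, Option.bind_some, Prod.map_fst, Prod.map_snd, id]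
      by_cases h : w.1 = c
      · rw [if_pos h, if_pos (by rw [h])]
      · rw [if_neg h, if_neg fun h' => h (hS hwS hc h')]

/-- The cells touched by the run. -/
def Mach.touched (A : Mach p Cell St Wd) (T : ℕ) (z : (Fin p → St) × (Cell → Wd)) :
    Finset Cell :=
  (Finset.range T ×ˢ (Finset.univ : Finset (Fin p))).biUnion fun u =>
    {A.read u.1 u.2 ((A.run z u.1).1 u.2)} ∪
      ((A.write u.1 u.2 ((A.run z (u.1 + 1)).1 u.2)).map Prod.fst).toFinset

theorem Mach.touched_card (A : Mach p Cell St Wd) (T : ℕ) (z : (Fin p → St) × (Cell → Wd)) :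
    (A.touched T z).card ≤ T * p * 2 := by
  unfold Mach.touched
  refine (Finset.card_biUnion_le_card_mul _ _ 2 fun u _ => ?_).trans (le_of_eq ?_)
  · refine (Finset.card_union_le _ _).trans ?_
    rw [Finset.card_singleton]
    have : ((A.write u.1 u.2 ((A.run z (u.1 + 1)).1 u.2)).map Prod.fst).toFinset.card ≤ 1 := by
      cases ((A.write u.1 u.2 ((A.run z (u.1 + 1)).1 u.2)).map Prod.fst) <;> simp
    omega
  · rw [Finset.card_product, Finset.card_range, Finset.card_univ, Fintype.card_fin]

theorem Mach.read_mem (A : Mach p Cell St Wd) (T : ℕ) (z : (Fin p → St) × (Cell → Wd)) (τ : ℕ)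
    (hτ : τ < T) (P : Fin p) : A.read τ P ((A.run z τ).1 P) ∈ A.touched T z := by
  refine Finset.mem_biUnion.2 ⟨(τ, P), Finset.mem_product.2 ⟨Finset.mem_range.2 hτ,
    Finset.mem_univ _⟩, ?_⟩
  simp

theorem Mach.write_mem (A : Mach p Cell St Wd) (T : ℕ) (z : (Fin p → St) × (Cell → Wd)) (τ : ℕ)
    (hτ : τ < T) (P : Fin p) (w : Cell × Wd)
    (hw : A.write τ P ((A.run z (τ + 1)).1 P) = some w) : w.1 ∈ A.touched T z := by
  refine Finset.mem_biUnion.2 ⟨(τ, P), Finset.mem_product.2 ⟨Finset.mem_range.2 hτ,
    Finset.mem_univ _⟩, ?_⟩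
  simp [hw]

end

end Pool.Agent.H58.OVPR
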