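import Pool.Agent.H58.OVAC.FssMain

/-! Sensitivity of functions on the cube with values in an arbitrary set. -/

set_option autoImplicit false
set_option maxHeartbeats 4000000

namespace Pool.Agent.H58.OVPR

open Pool.Agent.H58.OVAC

open Classical in
/-- Flip one coordinate. -/
noncomputable def flip {V : Type} (σ : V → Bool) (i : V) : V → Bool :=
  Function.update σ i (!σ i)

open Classical in
/-- The sensitivity of `f` at `σ`. -/
noncomputable def sens {V Y : Type} [Fintype V] (f : (V → Bool) → Y) (σ : V → Bool) : ℕ :=
  (Finset.univ.filter fun i => f (flip σ i) ≠ f σ).card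

section

variable {V Y : Type} [Fintype V]

theorem sens_le_of_isJunta {t : ℕ} {f : (V → Bool) → Y} (hf : IsJunta t f) (σ : V → Bool) :
    sens f σ ≤ t := by
  classical
  obtain ⟨J, h1, h2⟩ := hf
  refine (Finset.card_le_card ?_).trans h1
  intro i hi
  by_contra hiJ
  apply (Finset.mem_filter.1 hi).2
  apply h2
  intro k hk
  have : k ≠ i := by rintro rfl; exact hiJ hk
  simp [flip, this]

open Classical in
theorem alive_le_sens {N : ℕ} (ω : V → Fin N × Bool) (j : Fin N) (f : (V → Bool) → Y)
    (σ : V → Bool) :
    (Finset.univ.filter fun i => (ω i).1 = j ∧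
      f (flip (fun i => if (ω i).1 = j then σ i else (ω i).2) i) ≠
        f (fun i => if (ω i).1 = j then σ i else (ω i).2)).card ≤ sens (restr ω j f) σ := by
  apply Finset.card_le_card
  intro i hi
  obtain ⟨h1, h2⟩ := (Finset.mem_filter.1 hi).2
  refine Finset.mem_filter.2 ⟨Finset.mem_univ _, ?_⟩
  have h3 : restr ω j f (flip σ i) =
      f (flip (fun i => if (ω i).1 = j then σ i else (ω i).2) i) := by
    unfold restr
    congr 1
    funext k
    by_cases hk : k = i
    · subst hk
      simp [flip, h1]
    · simp [flip, hk]
  rw [h3]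
  exact h2

/-- The partition trick: large sensitivity shows up within some colour class. -/
theorem sens_part [DecidableEq V] {N : ℕ} (hN : 1 ≤ N) (f : (V → Bool) → Y) (S : ℕ) {δ : ℝ}
    (h : ∀ j : Fin N, (av fun ω : V → Fin N × Bool => pr fun σ : V → Bool =>
      S < sens (restr ω j f) σ) ≤ δ) :
    pr (fun σ : V → Bool => N * S < sens f σ) ≤ N * δ := by
  classical
  have hNe : Nonempty (Fin N) := ⟨⟨0, by omega⟩⟩
  let B : Fin N → (V → Fin N) → (V → Bool) → Prop := fun j c σ =>
    S < (Finset.univ.filter fun k => c k = j ∧ f (flip σ k) ≠ f σ).card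
  have h1 : ∀ (c : V → Fin N) (σ : V → Bool), N * S < sens f σ →
      ∃ j ∈ (Finset.univ : Finset (Fin N)), B j c σ := by
    intro c σ hσ
    by_contra hcon
    push Not at hcon
    have h2 : sens f σ = ∑ j : Fin N, (Finset.univ.filter fun k => c k = j ∧
        f (flip σ k) ≠ f σ).card := by
      unfold sens
      rw [Finset.card_eq_sum_card_fiberwise (f := c) (t := Finset.univ)
        (fun _ _ => Finset.mem_univ _)]
      apply Finset.sum_congr rfl
      intro j _
      congr 1
      ext k
      simp [and_comm]
    have h3 : sens f σ ≤ ∑ _j : Fin N, S := by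
      rw [h2]
      exact Finset.sum_le_sum fun j hj => not_lt.1 (hcon j hj)
    rw [Finset.sum_const, Finset.card_univ, Fintype.card_fin, smul_eq_mul] at h3
    omega
  have hone : ∀ j : Fin N, (av fun c : V → Fin N => pr fun σ => B j c σ) ≤ δ := by
    intro j
    have h2 : (av fun c : V → Fin N => pr fun σ => B j c σ) =
        av fun ω : V → Fin N × Bool => pr fun σ : V → Bool =>
          B j (fun k => (ω k).1) (fun k => if (ω k).1 = j then σ k else (ω k).2) := by
      have h3 := av_equiv (Equiv.arrowProdEquivProdArrow V (fun _ => Fin N) (fun _ => Bool))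
        (fun z : (V → Fin N) × (V → Bool) => pr fun σ : V → Bool =>
          B j z.1 (fun k => if z.1 k = j then σ k else z.2 k))
      refine Eq.trans ?_ h3.symm
      rw [av_prod fun (c : V → Fin N) (σ0 : V → Bool) => pr fun σ : V → Bool =>
          B j c (fun k => if c k = j then σ k else σ0 k)]
      apply av_congr
      intro c
      rw [← pr_mix (Finset.univ.filter fun k => c k ≠ j)]
      apply av_congr
      intro σ0
      apply pr_congr
      intro σ
      have : mix (Finset.univ.filter fun k => c k ≠ j) σ0 σ =
          fun k => if c k = j then σ k else σ0 k := by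
        funext k
        unfold mix
        by_cases hk : c k = j <;> simp [hk]
      rw [this]
    rw [h2]
    refine le_trans (av_mono fun ω => pr_mono fun σ hσ => ?_) (h j)
    exact lt_of_lt_of_le hσ (alive_le_sens ω j f σ)
  calc pr (fun σ : V → Bool => N * S < sens f σ)
      = av fun _ : V → Fin N => pr (fun σ : V → Bool => N * S < sens f σ) :=
        (av_const _).symm
    _ ≤ av fun c : V → Fin N => ∑ j : Fin N, pr fun σ => B j c σ :=
        av_mono fun c => (pr_mono (h1 c)).trans (pr_exists_le _ _)
    _ = ∑ j : Fin N, av fun c : V → Fin N => pr fun σ => B j c σ := av_sum _ _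
    _ ≤ ∑ _j : Fin N, δ := Finset.sum_le_sum fun j _ => hone j
    _ = N * δ := by
        rw [Finset.sum_const, Finset.card_univ, Fintype.card_fin, nsmul_eq_mul]

end

end Pool.Agent.H58.OVPR
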