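import Pool.Agent.H58.OVPR.Menu

/-! Two by two tables: reading steps and decision lists. -/

set_option autoImplicit false
set_option maxHeartbeats 4000000

namespace Pool.Agent.H58.OVPR

open Pool.Agent.H58.OVAC

section

variable {n : ℕ} {X Y : Type}

/-- Change the `i`-th entry on the left side. -/
def yA (y : Bool × Fin n → X) (i : Fin n) (a : X) : Bool × Fin n → X :=
  Function.update y (false, i) a

/-- Change the `j`-th entry on the right side. -/
def yB (y : Bool × Fin n → X) (j : Fin n) (b : X) : Bool × Fin n → X :=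
  Function.update y (true, j) b

/-- Change both. -/
def yAB (y : Bool × Fin n → X) (i j : Fin n) (a b : X) : Bool × Fin n → X :=
  Function.update (Function.update y (false, i) a) (true, j) b

/-- On the four inputs `u` does not react to the change of `j`, or does not react to the change
of `i`. -/
def Add (u : (Bool × Fin n → X) → Y) (y : Bool × Fin n → X) (a b : X) (i j : Fin n) : Prop :=
  (u y = u (yB y j b) ∧ u (yA y i a) = u (yAB y i j a b)) ∨
    (u y = u (yA y i a) ∧ u (yB y j b) = u (yAB y i j a b))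

/-- `u` reacts to the change of `i`. -/
def sA (u : (Bool × Fin n → X) → Y) (y : Bool × Fin n → X) (a : X) (i : Fin n) : Prop :=
  u (yA y i a) ≠ u y

/-- `u` reacts to the change of `j`. -/
def sB (u : (Bool × Fin n → X) → Y) (y : Bool × Fin n → X) (b : X) (j : Fin n) : Prop :=
  u (yB y j b) ≠ u y

theorem Add.comp {Z : Type} {u : (Bool × Fin n → X) → Y} {y : Bool × Fin n → X} {a b : X}
    {i j : Fin n} (h : Add u y a b i j) (g : Y → Z) : Add (fun x => g (u x)) y a b i j := by
  rcases h with ⟨h1, h2⟩ | ⟨h1, h2⟩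
  · exact Or.inl ⟨by simp only [h1], by simp only [h2]⟩
  · exact Or.inr ⟨by simp only [h1], by simp only [h2]⟩

theorem add_of_depOne {u : (Bool × Fin n → X) → Y} (hu : DepOne u) (y : Bool × Fin n → X)
    (a b : X) (i j : Fin n) : Add u y a b i j := by
  obtain ⟨P, h1, h2⟩ := hu
  by_cases hj : (true, j) ∈ P
  · have hi : (false, i) ∉ P := by
      intro hi
      have := Finset.card_le_one.1 h1 _ hi _ hj
      simp at this
    refine Or.inr ⟨h2 _ _ fun p hp => ?_, h2 _ _ fun p hp => ?_⟩
    · have : p ≠ (false, i) := by rintro rfl; exact hi hp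
      simp [yA, this]
    · have h3 : p ≠ (false, i) := by rintro rfl; exact hi hp
      unfold yB yAB
      by_cases h4 : p = (true, j)
      · subst h4
        simp
      · simp [h3, h4]
  · refine Or.inl ⟨h2 _ _ fun p hp => ?_, h2 _ _ fun p hp => ?_⟩
    · have : p ≠ (true, j) := by rintro rfl; exact hj hp
      simp [yB, this]
    · have : p ≠ (true, j) := by rintro rfl; exact hj hp
      simp [yA, yAB, this]

/-- The case analysis at a reading step. -/
theorem tableR {Cell St Wd : Type} [DecidableEq Cell] (s : (Bool × Fin n → X) → St)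
    (r : St → Cell) (F : Cell → (Bool × Fin n → X) → Wd) (g : St → Wd → Y)
    (y : Bool × Fin n → X) (a b : X) (i j : Fin n) (hs : Add s y a b i j)
    (hF : ∀ c, Add (F c) y a b i j)
    (hna : ¬ Add (fun x => g (s x) (F (r (s x)) x)) y a b i j) :
    ∃ c, (sA (fun x => if r (s x) = c then some (s x) else none) y a i ∧ sB (F c) y b j) ∨
      (sA (F c) y a i ∧ sB (fun x => if r (s x) = c then some (s x) else none) y b j) := by
  -- a state change moves the wire
  have hmove : ∀ (u v : Bool × Fin n → X), s u ≠ s v →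
      (if r (s u) = r (s u) then some (s u) else none) ≠
        (if r (s v) = r (s u) then some (s v) else none) := by
    intro u v huv
    rw [if_pos rfl]
    split_ifs with h
    · intro h'
      exact huv (Option.some_injective _ h')
    · simp
  unfold Add at hna hs hF
  unfold sA sB
  generalize yAB y i j a b = z at *
  generalize yA y i a = y1 at *
  generalize yB y j b = y2 at *
  rcases hs with ⟨h1, h2⟩ | ⟨h1, h2⟩
  · by_cases h3 : s y = s y1
    · exfalso
      apply hna
      have h4 : s z = s y := by rw [← h2, ← h3]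
      rcases hF (r (s y)) with ⟨h5, h6⟩ | ⟨h5, h6⟩
      · refine Or.inl ⟨?_, ?_⟩
        · simp only [← h1, h5]
        · simp only [← h3, h4, h6]
      · refine Or.inr ⟨?_, ?_⟩
        · simp only [← h3, h5]
        · simp only [← h1, h4, h6]
    · by_cases h4 : F (r (s y)) y = F (r (s y)) y2
      · have h5 : F (r (s y1)) y1 ≠ F (r (s y1)) z := by
          intro h5
          apply hna
          refine Or.inl ⟨?_, ?_⟩
          · simp only [← h1, h4]
          · simp only [← h2, h5]
        refine ⟨r (s y1), Or.inl ⟨hmove y1 y (Ne.symm h3), ?_⟩⟩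
        rcases hF (r (s y1)) with ⟨h6, h7⟩ | ⟨h6, h7⟩
        · exact absurd h7 h5
        · rw [h7, h6]
          exact Ne.symm h5
      · refine ⟨r (s y), Or.inl ⟨(hmove y y1 h3).symm, Ne.symm h4⟩⟩
  · by_cases h3 : s y = s y2
    · exfalso
      apply hna
      have h4 : s z = s y := by rw [← h2, ← h3]
      rcases hF (r (s y)) with ⟨h5, h6⟩ | ⟨h5, h6⟩
      · refine Or.inl ⟨?_, ?_⟩
        · simp only [← h3, h5]
        · simp only [← h1, h4, h6]
      · refine Or.inr ⟨?_, ?_⟩
        · simp only [← h1, h5]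
        · simp only [← h3, h4, h6]
    · by_cases h4 : F (r (s y)) y = F (r (s y)) y1
      · have h5 : F (r (s y2)) y2 ≠ F (r (s y2)) z := by
          intro h5
          apply hna
          refine Or.inr ⟨?_, ?_⟩
          · simp only [← h1, h4]
          · simp only [← h2, h5]
        refine ⟨r (s y2), Or.inr ⟨?_, hmove y2 y (Ne.symm h3)⟩⟩
        rcases hF (r (s y2)) with ⟨h6, h7⟩ | ⟨h6, h7⟩
        · rw [h7, h6]
          exact Ne.symm h5
        · exact absurd h7 h5
      · refine ⟨r (s y), Or.inr ⟨Ne.symm h4, (hmove y y2 h3).symm⟩⟩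

/-- The case analysis at a decision list. -/
theorem tableW {m : ℕ} (e : Fin m → (Bool × Fin n → X) → Option Y)
    (D : (Bool × Fin n → X) → Y)
    (hD : ∀ x, ∃ k, (∀ l < k, e l x = none) ∧ e k x = some (D x))
    (y : Bool × Fin n → X) (a b : X) (i j : Fin n) (he : ∀ k, Add (e k) y a b i j)
    (hna : ¬ Add D y a b i j) (k0 : Fin m) (hk0 : ∀ l < k0, e l y = none)
    (hk0' : e k0 y = some (D y)) :
    ∃ k, (sA (e k) y a i ∧ sB D y b j) ∨ (sA D y a i ∧ sB (e k) y b j) ∨
      (sA (e k0) y a i ∧ sB (e k) y b j) ∨ (sA (e k) y a i ∧ sB (e k0) y b j) := by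
  have hdiff : ∀ u v, D u ≠ D v → ∃ k, e k u ≠ e k v := by
    intro u v huv
    by_contra hcon
    push Not at hcon
    obtain ⟨k, h1, h2⟩ := hD u
    obtain ⟨k', h3, h4⟩ := hD v
    rcases lt_trichotomy k k' with h | h | h
    · have := h3 k h
      rw [← hcon k, h2] at this
      exact absurd this (by simp)
    · subst h
      rw [hcon k, h4] at h2
      exact huv (Option.some_injective _ h2).symm
    · have := h1 k' h
      rw [hcon k', h4] at this
      exact absurd this (by simp)
  unfold Add at hna he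
  unfold sA sB
  generalize yAB y i j a b = z at *
  generalize yA y i a = y1 at *
  generalize yB y j b = y2 at *
  by_cases h1 : D y1 = D y
  · by_cases h2 : D y2 = D y
    · -- the output changes only at `z`
      have hz : D z ≠ D y := by
        intro h
        exact hna (Or.inl ⟨h2.symm, by rw [h1, h]⟩)
      obtain ⟨ka, hka⟩ := hdiff y1 z (by rw [h1]; exact Ne.symm hz)
      obtain ⟨kb, hkb⟩ := hdiff y2 z (by rw [h2]; exact Ne.symm hz)
      have hka' : e ka y2 ≠ e ka y := by
        rcases he ka with ⟨h3, h4⟩ | ⟨h3, h4⟩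
        · exact absurd h4 hka
        · rw [h3, h4]
          exact Ne.symm hka
      have hkb' : e kb y1 ≠ e kb y := by
        rcases he kb with ⟨h3, h4⟩ | ⟨h3, h4⟩
        · rw [h3, h4]
          exact Ne.symm hkb
        · exact absurd h4 hkb
      by_cases c1 : e k0 y1 = e k0 y
      · by_cases c2 : e k0 y2 = e k0 y
        · exfalso
          have c3 : e k0 z = some (D y) := by
            rcases he k0 with ⟨h3, h4⟩ | ⟨h3, h4⟩
            · rw [← h4, c1, hk0']
            · rw [← h4, c2, hk0']
          obtain ⟨kz, hkz1, hkz2⟩ := hD z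
          have hkz3 : kz < k0 := by
            rcases lt_trichotomy kz k0 with h | h | h
            · exact h
            · subst h
              rw [hkz2] at c3
              exact absurd (Option.some_injective _ c3) hz
            · rw [hkz1 k0 h] at c3
              exact absurd c3 (by simp)
          have hkzy := hk0 kz hkz3
          rcases he kz with ⟨h3, h4⟩ | ⟨h3, h4⟩
          · -- fires at `y1`
            rw [hkz2] at h4
            obtain ⟨k1, hk1, hk1'⟩ := hD y1
            have hlt : k1 < kz := by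
              rcases lt_trichotomy k1 kz with h | h | h
              · exact h
              · subst h
                rw [h4, h1] at hk1'
                exact absurd (Option.some_injective _ hk1') hz
              · rw [hk1 kz h] at h4
                exact absurd h4 (by simp)
            have e1 := hkz1 k1 hlt
            have e2 := hk0 k1 (hlt.trans hkz3)
            rcases he k1 with ⟨h5, h6⟩ | ⟨h5, h6⟩
            · rw [hk1', e1] at h6
              exact absurd h6 (by simp)
            · rw [hk1', e2] at h5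
              exact absurd h5 (by simp)
          · rw [hkz2] at h4
            obtain ⟨k1, hk1, hk1'⟩ := hD y2
            have hlt : k1 < kz := by
              rcases lt_trichotomy k1 kz with h | h | h
              · exact h
              · subst h
                rw [h4, h2] at hk1'
                exact absurd (Option.some_injective _ hk1') hz
              · rw [hk1 kz h] at h4
                exact absurd h4 (by simp)
            have e1 := hkz1 k1 hlt
            have e2 := hk0 k1 (hlt.trans hkz3)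
            rcases he k1 with ⟨h5, h6⟩ | ⟨h5, h6⟩
            · rw [hk1', e2] at h5
              exact absurd h5 (by simp)
            · rw [hk1', e1] at h6
              exact absurd h6 (by simp)
        · exact ⟨kb, Or.inr (Or.inr (Or.inr ⟨hkb', c2⟩))⟩
      · exact ⟨ka, Or.inr (Or.inr (Or.inl ⟨c1, hka'⟩))⟩
    · have hz : D y2 ≠ D z := fun h => hna (Or.inr ⟨h1.symm, h⟩)
      obtain ⟨k, hk⟩ := hdiff y2 z hz
      refine ⟨k, Or.inl ⟨?_, h2⟩⟩
      rcases he k with ⟨h3, h4⟩ | ⟨h3, h4⟩
      · rw [h3, h4]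
        exact Ne.symm hk
      · exact absurd h4 hk
  · by_cases h2 : D y2 = D y
    · have hz : D y1 ≠ D z := fun h => hna (Or.inl ⟨h2.symm, h⟩)
      obtain ⟨k, hk⟩ := hdiff y1 z hz
      refine ⟨k, Or.inr (Or.inl ⟨h1, ?_⟩)⟩
      rcases he k with ⟨h3, h4⟩ | ⟨h3, h4⟩
      · exact absurd h4 hk
      · rw [h3, h4]
        exact Ne.symm hk
    · obtain ⟨k, hk⟩ := hdiff y1 y h1
      exact ⟨k, Or.inl ⟨hk, h2⟩⟩

open Classical in
/-- The number of left positions whose change matters. -/
noncomputable def NA (u : (Bool × Fin n → X) → Y) (y : Bool × Fin n → X) (a : X) : ℕ :=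
  (Finset.univ.filter fun i => sA u y a i).card

open Classical in
/-- The number of right positions whose change matters. -/
noncomputable def NB (u : (Bool × Fin n → X) → Y) (y : Bool × Fin n → X) (b : X) : ℕ :=
  (Finset.univ.filter fun j => sB u y b j).card

open Classical in
/-- A covering of a set of pairs by products. -/
theorem card_le_of_cover {ι Y₁ Y₂ Y₃ Y₄ Y₅ Y₆ Y₇ Y₈ : Type} [Fintype ι]
    (Q : Fin n → Fin n → Prop) (s : Finset (Fin n × Fin n)) (hs : ∀ z ∈ s, Q z.1 z.2)
    (y : Bool × Fin n → X) (a b : X)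
    (u₁ : ι → (Bool × Fin n → X) → Y₁) (v₁ : ι → (Bool × Fin n → X) → Y₂)
    (u₂ : ι → (Bool × Fin n → X) → Y₃) (v₂ : ι → (Bool × Fin n → X) → Y₄)
    (u₃ : ι → (Bool × Fin n → X) → Y₅) (v₃ : ι → (Bool × Fin n → X) → Y₆)
    (u₄ : ι → (Bool × Fin n → X) → Y₇) (v₄ : ι → (Bool × Fin n → X) → Y₈)
    (h : ∀ i j, Q i j → ∃ k, (sA (u₁ k) y a i ∧ sB (v₁ k) y b j) ∨
      (sA (u₂ k) y a i ∧ sB (v₂ k) y b j) ∨ (sA (u₃ k) y a i ∧ sB (v₃ k) y b j) ∨
      (sA (u₄ k) y a i ∧ sB (v₄ k) y b j)) :
    s.card ≤
      ∑ k, (NA (u₁ k) y a * NB (v₁ k) y b + NA (u₂ k) y a * NB (v₂ k) y b +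
        NA (u₃ k) y a * NB (v₃ k) y b + NA (u₄ k) y a * NB (v₄ k) y b) := by
  have hsub : s ⊆
      Finset.univ.biUnion fun k =>
        ((((Finset.univ.filter fun i => sA (u₁ k) y a i) ×ˢ
          (Finset.univ.filter fun j => sB (v₁ k) y b j)) ∪
        ((Finset.univ.filter fun i => sA (u₂ k) y a i) ×ˢ
          (Finset.univ.filter fun j => sB (v₂ k) y b j))) ∪
        ((Finset.univ.filter fun i => sA (u₃ k) y a i) ×ˢ
          (Finset.univ.filter fun j => sB (v₃ k) y b j))) ∪
        ((Finset.univ.filter fun i => sA (u₄ k) y a i) ×ˢ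
          (Finset.univ.filter fun j => sB (v₄ k) y b j)) := by
    intro p hp
    obtain ⟨k, hk⟩ := h p.1 p.2 (hs p hp)
    refine Finset.mem_biUnion.2 ⟨k, Finset.mem_univ _, ?_⟩
    simp only [Finset.mem_union, Finset.mem_product, Finset.mem_filter,
      Finset.mem_univ, true_and]
    tauto
  refine (Finset.card_le_card hsub).trans (Finset.card_biUnion_le.trans ?_)
  apply Finset.sum_le_sum
  intro k _
  refine (Finset.card_union_le _ _).trans ?_
  refine Nat.add_le_add ?_ (le_of_eq (Finset.card_product _ _))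
  refine (Finset.card_union_le _ _).trans ?_
  refine Nat.add_le_add ?_ (le_of_eq (Finset.card_product _ _))
  refine (Finset.card_union_le _ _).trans ?_
  exact Nat.add_le_add (le_of_eq (Finset.card_product _ _)) (le_of_eq (Finset.card_product _ _))

end

section

variable {p : ℕ} {Cell St Wd Ω : Type} [DecidableEq Cell]

/-- The wire from the processor `P` to the cell `c` which it may read. -/
def Run.eR (R : Run p Cell St Wd Ω) (τ : ℕ) (P : Fin p) (c : Cell) : Ω → Option St :=
  fun x => if R.read τ P (R.st τ P x) = c then some (R.st τ P x) else none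

/-- The items of the decision list which gives the content of the cell `c` at time `τ + 1`; the
last item is the old content. -/
def Run.eW (R : Run p Cell St Wd Ω) (τ : ℕ) (c : Cell) : Fin (p + 1) → Ω → Option Wd :=
  Fin.snoc (α := fun _ => Ω → Option Wd) (fun k x => item (R.write τ k (R.st (τ + 1) k x)) c)
    (fun x => some (R.ct τ c x))

theorem Run.eW_spec (R : Run p Cell St Wd Ω) (τ : ℕ) (c : Cell) (x : Ω) :
    ∃ k, (∀ l < k, R.eW τ c l x = none) ∧ R.eW τ c k x = some (R.ct (τ + 1) c x) := by
  rcases R.hct τ c x with ⟨h1, h2⟩ | ⟨k, h1, h2⟩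
  · refine ⟨Fin.last p, fun l hl => ?_, ?_⟩
    · obtain ⟨l', rfl⟩ : ∃ l' : Fin p, l = l'.castSucc := ⟨⟨l.1, hl⟩, rfl⟩
      simp only [Run.eW, Fin.snoc_castSucc]
      exact h1 l'
    · simp only [Run.eW, Fin.snoc_last, h2]
  · refine ⟨k.castSucc, fun l hl => ?_, ?_⟩
    · have hl' : l.1 < k.1 := hl
      obtain ⟨l', rfl⟩ : ∃ l' : Fin p, l = l'.castSucc := ⟨⟨l.1, by omega⟩, rfl⟩
      simp only [Run.eW, Fin.snoc_castSucc]
      exact h1 l' hl
    · simp only [Run.eW, Fin.snoc_castSucc]
      exact h2

/-- The first item which fires. -/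
noncomputable def Run.k0 (R : Run p Cell St Wd Ω) (τ : ℕ) (c : Cell) (x : Ω) : Fin (p + 1) :=
  Classical.choose (R.eW_spec τ c x)

end

section

variable {p n : ℕ} {Cell St Wd X : Type} [DecidableEq Cell] [Fintype Cell]

theorem eW_add (R : Run p Cell St Wd (Bool × Fin n → X)) (τ : ℕ) (c : Cell)
    (y : Bool × Fin n → X) (a b : X) (i j : Fin n) (hs : ∀ P, Add (R.st (τ + 1) P) y a b i j)
    (hc : Add (R.ct τ c) y a b i j) (k : Fin (p + 1)) : Add (R.eW τ c k) y a b i j := by
  refine Fin.lastCases ?_ (fun k => ?_) k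
  · simp only [Run.eW, Fin.snoc_last]
    exact hc.comp some
  · simp only [Run.eW, Fin.snoc_castSucc]
    exact (hs k).comp fun s => item (R.write τ k s) c

open Classical in
/-- Every interaction arises at some step. -/
theorem int_card (R : Run p Cell St Wd (Bool × Fin n → X)) (hs0 : ∀ P, DepOne (R.st 0 P))
    (hc0 : ∀ c, DepOne (R.ct 0 c)) (T : ℕ) (out : Cell)
    (y : Bool × Fin n → X) (a b : X) :
    (Finset.univ.filter fun z : Fin n × Fin n => ¬ Add (R.ct T out) y a b z.1 z.2).card ≤
    ∑ τ ∈ Finset.range T,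
      ((∑ P, ∑ c, (NA (R.eR τ P c) y a * NB (R.ct τ c) y b +
        NA (R.ct τ c) y a * NB (R.eR τ P c) y b)) +
      ∑ c, ∑ k, (NA (R.eW τ c k) y a * NB (R.ct (τ + 1) c) y b +
        NA (R.ct (τ + 1) c) y a * NB (R.eW τ c k) y b +
        NA (R.eW τ c (R.k0 τ c y)) y a * NB (R.eW τ c k) y b +
        NA (R.eW τ c k) y a * NB (R.eW τ c (R.k0 τ c y)) y b)) := by
  let QR : ℕ → Fin p → Fin n → Fin n → Prop := fun τ P i j =>
    Add (R.st τ P) y a b i j ∧ (∀ c, Add (R.ct τ c) y a b i j) ∧ ¬ Add (R.st (τ + 1) P) y a b i j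
  let QW : ℕ → Cell → Fin n → Fin n → Prop := fun τ c i j =>
    (∀ k, Add (R.eW τ c k) y a b i j) ∧ ¬ Add (R.ct (τ + 1) c) y a b i j
  have key : ∀ (i j : Fin n), (∀ τ < T, (∀ P, ¬ QR τ P i j) ∧ ∀ c, ¬ QW τ c i j) →
      ∀ τ ≤ T, (∀ P, Add (R.st τ P) y a b i j) ∧ ∀ c, Add (R.ct τ c) y a b i j := by
    intro i j hno τ
    induction τ with
    | zero =>
      intro _
      exact ⟨fun P => add_of_depOne (hs0 P) y a b i j, fun c => add_of_depOne (hc0 c) y a b i j⟩
    | succ τ ih =>
      intro hτ
      obtain ⟨h1, h2⟩ := ih (by omega)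
      obtain ⟨h3, h4⟩ := hno τ (by omega)
      have h5 : ∀ P, Add (R.st (τ + 1) P) y a b i j := by
        intro P
        by_contra h
        exact h3 P ⟨h1 P, h2, h⟩
      refine ⟨h5, fun c => ?_⟩
      by_contra h
      exact h4 c ⟨eW_add R τ c y a b i j h5 (h2 c), h⟩
  have hsub : (Finset.univ.filter fun z : Fin n × Fin n => ¬ Add (R.ct T out) y a b z.1 z.2) ⊆
      (Finset.range T).biUnion fun τ =>
        (Finset.univ.biUnion fun P => Finset.univ.filter fun z : Fin n × Fin n =>
          QR τ P z.1 z.2) ∪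
        (Finset.univ.biUnion fun c => Finset.univ.filter fun z : Fin n × Fin n =>
          QW τ c z.1 z.2) := by
    intro z hz
    by_contra hcon
    apply (Finset.mem_filter.1 hz).2
    refine (key z.1 z.2 (fun τ hτ => ⟨fun P hP => hcon ?_, fun c hc => hcon ?_⟩) T le_rfl).2 out
    · exact Finset.mem_biUnion.2 ⟨τ, Finset.mem_range.2 hτ, Finset.mem_union_left _
        (Finset.mem_biUnion.2 ⟨P, Finset.mem_univ _, Finset.mem_filter.2
          ⟨Finset.mem_univ _, hP⟩⟩)⟩
    · exact Finset.mem_biUnion.2 ⟨τ, Finset.mem_range.2 hτ, Finset.mem_union_right _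
        (Finset.mem_biUnion.2 ⟨c, Finset.mem_univ _, Finset.mem_filter.2
          ⟨Finset.mem_univ _, hc⟩⟩)⟩
  refine (Finset.card_le_card hsub).trans (Finset.card_biUnion_le.trans ?_)
  apply Finset.sum_le_sum
  intro τ _
  refine (Finset.card_union_le _ _).trans (Nat.add_le_add ?_ ?_)
  · refine Finset.card_biUnion_le.trans ?_
    apply Finset.sum_le_sum
    intro P _
    have h1 := card_le_of_cover (QR τ P) (Finset.univ.filter fun z : Fin n × Fin n =>
        QR τ P z.1 z.2) (fun z hz => (Finset.mem_filter.1 hz).2) y a b (R.eR τ P) (R.ct τ) (R.ct τ) (R.eR τ P)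
      (fun (_ : Cell) (_ : Bool × Fin n → X) => ()) (fun (_ : Cell) (_ : Bool × Fin n → X) => ())
      (fun (_ : Cell) (_ : Bool × Fin n → X) => ()) (fun (_ : Cell) (_ : Bool × Fin n → X) => ())
      (by
        rintro i j ⟨h1, h2, h3⟩
        have h4 : R.st (τ + 1) P = fun x => R.next τ P (R.st τ P x)
            (R.ct τ (R.read τ P (R.st τ P x)) x) := by
          funext x
          exact R.hst τ P x
        rw [h4] at h3
        obtain ⟨c, hc⟩ := tableR (R.st τ P) (R.read τ P) (R.ct τ) (R.next τ P) y a b i j h1 h2 h3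
        refine ⟨c, ?_⟩
        rcases hc with hc | hc
        · exact Or.inl hc
        · exact Or.inr (Or.inl hc))
    refine h1.trans (le_of_eq ?_)
    apply Finset.sum_congr rfl
    intro c _
    have h2 : NA (fun _ : Bool × Fin n → X => ()) y a = 0 := by
      unfold NA sA
      simp
    rw [h2]
    ring
  · refine Finset.card_biUnion_le.trans ?_
    apply Finset.sum_le_sum
    intro c _
    apply card_le_of_cover (QW τ c) _ (fun z hz => (Finset.mem_filter.1 hz).2) y a b (R.eW τ c) (fun _ => R.ct (τ + 1) c)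
      (fun _ => R.ct (τ + 1) c) (R.eW τ c) (fun _ => R.eW τ c (R.k0 τ c y)) (R.eW τ c)
      (R.eW τ c) (fun _ => R.eW τ c (R.k0 τ c y))
    rintro i j ⟨h1, h2⟩
    obtain ⟨h3, h4⟩ := Classical.choose_spec (R.eW_spec τ c y)
    exact tableW (R.eW τ c) (R.ct (τ + 1) c) (R.eW_spec τ c) y a b i j h1 h2 (R.k0 τ c y) h3 h4

end

end Pool.Agent.H58.OVPR
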